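import Pool.Agent.TOR.Avg

/-!
# TOS: a symplectomorphism whose first complex coordinate is invariant under a circle of linear
maps commutes with the circle
-/

set_option autoImplicit false

open scoped ContDiff Topology
open Set Function TopologicalSpace MeasureTheory

namespace Pool.Agent.TOS

open Pool.Agent.Helper17 Pool.Agent.Helper42 Pool.Agent.H50.Susp Pool.Agent.CRC Pool.Agent.TOR

lemma _root_.Pool.Agent.TOR.LinCircle.zero {n : ℕ}
    {Λ : ℝ → Phase (n + 1) →L[ℝ] Phase (n + 1)} (hΛ : LinCircle Λ) (p : Phase (n + 1)) :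
    Λ 0 p = p := by
  have h1 := hΛ.add 0 (2 * Real.pi) p
  rw [zero_add, hΛ.per] at h1
  exact h1.symm

lemma _root_.Pool.Agent.TOR.LinCircle.neg_cancel {n : ℕ}
    {Λ : ℝ → Phase (n + 1) →L[ℝ] Phase (n + 1)} (hΛ : LinCircle Λ) (s : ℝ) (p : Phase (n + 1)) :
    Λ (-s) (Λ s p) = p := by
  rw [← hΛ.add, neg_add_cancel, hΛ.zero]

lemma _root_.Pool.Agent.TOR.LinCircle.cancel_neg {n : ℕ}
    {Λ : ℝ → Phase (n + 1) →L[ℝ] Phase (n + 1)} (hΛ : LinCircle Λ) (s : ℝ) (p : Phase (n + 1)) :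
    Λ s (Λ (-s) p) = p := by
  rw [← hΛ.add, add_neg_cancel, hΛ.zero]

/-- **Comm, part 1** -/
theorem comm (hUNI : St_UNI) {n : ℕ} {Λ : ℝ → Phase (n + 1) →L[ℝ] Phase (n + 1)}
    (hΛ : LinCircle Λ) (φ : SympCt (n + 1))
    (h : ∀ s p, zz ((φ : Equiv.Perm (Phase (n + 1))) (Λ s p)) =
      zz ((φ : Equiv.Perm (Phase (n + 1))) p)) (s : ℝ) (p : Phase (n + 1)) :
    (φ : Equiv.Perm (Phase (n + 1))) (Λ s p) = Λ s ((φ : Equiv.Perm (Phase (n + 1))) p) := by
  obtain ⟨K, hK, hKφ⟩ := φ.2.2.2.2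
  have hφd : Differentiable ℝ (φ : Equiv.Perm (Phase (n + 1))) := SympCt.differentiable φ
  have hfd : ∀ q, HasFDerivAt (fun p => Λ (-s) ((φ : Equiv.Perm (Phase (n + 1))) (Λ s p)))
      ((Λ (-s)).comp ((fderiv ℝ (φ : Equiv.Perm (Phase (n + 1))) (Λ s q)).comp (Λ s))) q :=
    fun q => (Λ (-s)).hasFDerivAt.comp q ((hφd _).hasFDerivAt.comp q (Λ s).hasFDerivAt)
  let ψ : SympCt (n + 1) := mkSymp
    (fun p => Λ (-s) ((φ : Equiv.Perm (Phase (n + 1))) (Λ s p)))
    ((Λ (-s)).contDiff.comp ((SympCt.contDiff φ).comp (Λ s).contDiff))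
    ⟨Λ (-s) '' K, hK.image (Λ (-s)).continuous, fun x hx => by
      have h1 : Λ s x ∉ K := fun h2 => hx ⟨Λ s x, h2, hΛ.neg_cancel s x⟩
      rw [hKφ _ h1, hΛ.neg_cancel]⟩
    (fun z u v => by
      rw [(hfd z).fderiv]
      simp only [ContinuousLinearMap.comp_apply]
      rw [hΛ.symp, φ.2.2.2.1, hΛ.symp])
  have hψ : ψ = φ := hUNI n ψ φ fun q => by
    show zz (Λ (-s) ((φ : Equiv.Perm (Phase (n + 1))) (Λ s q))) = _
    rw [hΛ.z, h]
  have h1 : Λ (-s) ((φ : Equiv.Perm (Phase (n + 1))) (Λ s p)) =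
      (φ : Equiv.Perm (Phase (n + 1))) p := by
    have h2 : (ψ : Equiv.Perm (Phase (n + 1))) p = (φ : Equiv.Perm (Phase (n + 1))) p := by
      rw [hψ]
    exact h2
  rw [← h1, hΛ.cancel_neg]

/-- a smooth function whose Hamiltonian flow is `Λ` and which has to be compared with its image -/
lemma hamV_comp_symp {N : ℕ} {f : Phase N → ℝ} (hf : Differentiable ℝ f) (φ : SympCt N)
    (p : Phase N) :
    fderiv ℝ (φ : Equiv.Perm (Phase N)) p
      (hamV (fun q => f ((φ : Equiv.Perm (Phase N)) q)) p) =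
      hamV f ((φ : Equiv.Perm (Phase N)) p) := by
  rw [← sub_eq_zero]
  apply eq_zero_of_omegaStd
  intro w'
  obtain ⟨w, rfl⟩ := MOM.symp_surj (φ.2.2.2.1 p) w'
  have h1 : HasFDerivAt (fun q => f ((φ : Equiv.Perm (Phase N)) q))
      ((fderiv ℝ f ((φ : Equiv.Perm (Phase N)) p)).comp
        (fderiv ℝ (φ : Equiv.Perm (Phase N)) p)) p :=
    (hf _).hasFDerivAt.comp p (SympCt.differentiable φ p).hasFDerivAt
  rw [omegaStd_sub_left, φ.2.2.2.1, omegaStd_hamV, omegaStd_hamV, h1.fderiv]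
  simp

/-- **Comm, part 2**: a symplectomorphism which commutes with a Hamiltonian circle preserves its
moment map -/
theorem moment {n : ℕ} {Λ : ℝ → Phase n →L[ℝ] Phase n} (hΛ0 : ∀ p, Λ 0 p = p)
    (φ : SympCt n)
    (h : ∀ s p, (φ : Equiv.Perm (Phase n)) (Λ s p) = Λ s ((φ : Equiv.Perm (Phase n)) p))
    {ν : Phase n → ℝ} (hν : Differentiable ℝ ν)
    (hd : ∀ p, HasDerivAt (fun s => Λ s p) (hamV ν p) 0) (p : Phase n) (hn : n ≠ 0) :
    ν ((φ : Equiv.Perm (Phase n)) p) = ν p := by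
  obtain ⟨K, hK, hKφ⟩ := φ.2.2.2.2
  have hφd : Differentiable ℝ (φ : Equiv.Perm (Phase n)) := SympCt.differentiable φ
  -- the derivative of `φ` maps the vector field to itself
  have h1 : ∀ q, fderiv ℝ (φ : Equiv.Perm (Phase n)) q (hamV ν q) =
      hamV ν ((φ : Equiv.Perm (Phase n)) q) := by
    intro q
    have h2 : HasDerivAt (fun s => (φ : Equiv.Perm (Phase n)) (Λ s q))
        (fderiv ℝ (φ : Equiv.Perm (Phase n)) q (hamV ν q)) 0 := by
      have h3 : HasFDerivAt (φ : Equiv.Perm (Phase n))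
          (fderiv ℝ (φ : Equiv.Perm (Phase n)) q) (Λ 0 q) := by
        rw [hΛ0]
        exact (hφd q).hasFDerivAt
      exact h3.comp_hasDerivAt (0 : ℝ) (hd q)
    have h3 : (fun s => (φ : Equiv.Perm (Phase n)) (Λ s q)) =
        fun s => Λ s ((φ : Equiv.Perm (Phase n)) q) := funext fun s => h s q
    rw [h3] at h2
    exact h2.unique (hd _)
  -- so `d (ν ∘ φ) = d ν`
  have h2 : ∀ q, HasFDerivAt (fun q => ν ((φ : Equiv.Perm (Phase n)) q)) (fderiv ℝ ν q) q := by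
    intro q
    have h3 : HasFDerivAt (fun q => ν ((φ : Equiv.Perm (Phase n)) q))
        ((fderiv ℝ ν ((φ : Equiv.Perm (Phase n)) q)).comp
          (fderiv ℝ (φ : Equiv.Perm (Phase n)) q)) q :=
      (hν _).hasFDerivAt.comp q (hφd q).hasFDerivAt
    have h4 : (fderiv ℝ ν ((φ : Equiv.Perm (Phase n)) q)).comp
          (fderiv ℝ (φ : Equiv.Perm (Phase n)) q) = fderiv ℝ ν q := by
      ext v
      rw [ContinuousLinearMap.comp_apply]
      have h5 := φ.2.2.2.1 q (hamV ν q) v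
      rw [h1, omegaStd_hamV, omegaStd_hamV] at h5
      exact neg_injective h5
    rw [h4] at h3
    exact h3
  have h3 : ∀ q, HasFDerivAt (fun q => ν ((φ : Equiv.Perm (Phase n)) q) - ν q)
      (0 : Phase n →L[ℝ] ℝ) q := fun q => by
    have := (h2 q).sub (hν q).hasFDerivAt
    rwa [sub_self] at this
  have h4 : ∀ q r, ν ((φ : Equiv.Perm (Phase n)) q) - ν q =
      ν ((φ : Equiv.Perm (Phase n)) r) - ν r := fun q r =>
    is_const_of_fderiv_eq_zero (𝕜 := ℝ) (fun x => (h3 x).differentiableAt)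
      (fun x => (h3 x).fderiv) q r
  have hne : ∃ q, q ∉ K := by
    by_contra hcon
    push Not at hcon
    have h5 : K = univ := eq_univ_of_forall hcon
    rw [h5] at hK
    have : Nontrivial (Phase n) := by
      refine ⟨0, EuclideanSpace.single (Sum.inl ⟨0, Nat.pos_of_ne_zero hn⟩) 1, ?_⟩
      intro h6
      have h7 := congrFun (congrArg (fun v : Phase n => (v : _ → ℝ)) h6)
        (Sum.inl ⟨0, Nat.pos_of_ne_zero hn⟩)
      simp at h7
    exact noncompact_univ (Phase n) hK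
  obtain ⟨r, hr⟩ := hne
  have h5 := h4 p r
  rw [hKφ r hr, sub_self] at h5
  linarith

end Pool.Agent.TOS
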