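import Pool.Agent.CRC.St
import Pool.Agent.CRC.Basic
import Pool.Agent.CRC.MOM
import Pool.Agent.CRC.FIN

/-!
# Toric systems: the fibres

Fibres of `φ ↦ (mu ∘ φ, ν i ∘ φ)`, where the Hamiltonian flows of the functions `ν i` are circles of
linear maps which fix `z_0`.
-/

set_option autoImplicit false

open scoped ContDiff Topology
open Set Function TopologicalSpace

namespace Pool.Agent.TOS

open Pool.Agent.Helper17 Pool.Agent.Helper42 Pool.Agent.H50.Susp Pool.Agent.CRC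

/-- The Hamiltonian flow of `ν` is the one-parameter group `Λ` of linear isometries which fix
`z_0`. -/
structure HamCircle {n : ℕ} (ν : Phase (n + 1) → ℝ)
    (Λ : ℝ → Phase (n + 1) →L[ℝ] Phase (n + 1)) : Prop where
  smooth : ContDiff ℝ ∞ ν
  zero : ∀ p, Λ 0 p = p
  norm : ∀ s p, ‖Λ s p‖ = ‖p‖
  z : ∀ s p, zz (Λ s p) = zz p
  orb : ∀ s p, HasDerivAt (fun s => Λ s p) (hamV ν (Λ s p)) s
  uniq : ∀ c : ℝ → Phase (n + 1), (∀ s, HasDerivAt c (hamV ν (c s)) s) → ∀ s, c s = Λ s (c 0)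

variable {n : ℕ}

/-- The curves `φ⁻¹ (Λ s (φ p))` are the Hamiltonian orbits of `ν ∘ φ`. -/
lemma HamCircle.orb_comp {ν : Phase (n + 1) → ℝ} {Λ : ℝ → Phase (n + 1) →L[ℝ] Phase (n + 1)}
    (h : HamCircle ν Λ) (φ : SympCt (n + 1)) (s : ℝ) (p : Phase (n + 1)) :
    HasDerivAt (fun s => (φ : Equiv.Perm (Phase (n + 1))).symm
        (Λ s ((φ : Equiv.Perm (Phase (n + 1))) p)))
      (hamV (fun p => ν ((φ : Equiv.Perm (Phase (n + 1))) p))
        ((φ : Equiv.Perm (Phase (n + 1))).symm (Λ s ((φ : Equiv.Perm (Phase (n + 1))) p)))) s := by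
  have hν : Differentiable ℝ ν := h.smooth.differentiable (by simp)
  have hcomp : Differentiable ℝ (fun p => ν ((φ : Equiv.Perm (Phase (n + 1))) p)) :=
    hν.comp (SympCt.differentiable φ)
  have h1 := (SympCt.differentiable φ⁻¹
    (Λ s ((φ : Equiv.Perm (Phase (n + 1))) p))).hasFDerivAt.comp_hasDerivAt s
    (h.orb s ((φ : Equiv.Perm (Phase (n + 1))) p))
  have h2 := MOM.map_hamV hcomp φ⁻¹ (Λ s ((φ : Equiv.Perm (Phase (n + 1))) p))
  have h3 : (fun p => ν ((φ : Equiv.Perm (Phase (n + 1)))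
      (((φ⁻¹ : SympCt (n + 1)) : Equiv.Perm (Phase (n + 1))) p))) = ν := by
    funext p
    congr 1
    exact Equiv.apply_symm_apply (φ : Equiv.Perm (Phase (n + 1))) p
  simp only [h3] at h2
  rw [h2] at h1
  exact h1

lemma HamCircle.uniq_comp {ν : Phase (n + 1) → ℝ} {Λ : ℝ → Phase (n + 1) →L[ℝ] Phase (n + 1)}
    (h : HamCircle ν Λ) (φ : SympCt (n + 1)) (c : ℝ → Phase (n + 1))
    (hc : ∀ s, HasDerivAt c (hamV (fun p => ν ((φ : Equiv.Perm (Phase (n + 1))) p)) (c s)) s)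
    (s : ℝ) : (φ : Equiv.Perm (Phase (n + 1))) (c s) =
      Λ s ((φ : Equiv.Perm (Phase (n + 1))) (c 0)) := by
  have hν : Differentiable ℝ ν := h.smooth.differentiable (by simp)
  have hd : ∀ s, HasDerivAt (fun s => (φ : Equiv.Perm (Phase (n + 1))) (c s))
      (hamV ν ((φ : Equiv.Perm (Phase (n + 1))) (c s))) s := by
    intro s
    have h2 := (SympCt.differentiable φ (c s)).hasFDerivAt.comp_hasDerivAt s (hc s)
    rwa [MOM.map_hamV hν] at h2
  exact h.uniq _ hd s

/-- **A**: brackets and invariance. -/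
lemma HamCircle.bracket_iff {ν : Phase (n + 1) → ℝ}
    {Λ : ℝ → Phase (n + 1) →L[ℝ] Phase (n + 1)} (h : HamCircle ν Λ) (φ : SympCt (n + 1))
    {η : Phase (n + 1) → ℝ} (hη : ContDiff ℝ ∞ η) :
    (∀ p, fderiv ℝ η p (hamField (fun q => ν ((φ : Equiv.Perm (Phase (n + 1))) q)) p) = 0) ↔
      ∀ s p, η ((φ : Equiv.Perm (Phase (n + 1))).symm
        (Λ s ((φ : Equiv.Perm (Phase (n + 1))) p))) = η p := by
  have hd : Differentiable ℝ η := hη.differentiable (by simp)
  have hcurve : ∀ s p, HasDerivAt (fun s => η ((φ : Equiv.Perm (Phase (n + 1))).symm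
      (Λ s ((φ : Equiv.Perm (Phase (n + 1))) p))))
      (fderiv ℝ η ((φ : Equiv.Perm (Phase (n + 1))).symm
        (Λ s ((φ : Equiv.Perm (Phase (n + 1))) p)))
        (hamV (fun p => ν ((φ : Equiv.Perm (Phase (n + 1))) p))
        ((φ : Equiv.Perm (Phase (n + 1))).symm
          (Λ s ((φ : Equiv.Perm (Phase (n + 1))) p))))) s := fun s p =>
    (hd _).hasFDerivAt.comp_hasDerivAt s (h.orb_comp φ s p)
  constructor
  · intro hb s p
    have h1 : ∀ s, HasDerivAt (fun s => η ((φ : Equiv.Perm (Phase (n + 1))).symm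
        (Λ s ((φ : Equiv.Perm (Phase (n + 1))) p)))) 0 s := by
      intro s
      have h2 := hcurve s p
      rwa [← hamField_eqV, hb] at h2
    have h2 := is_const_of_deriv_eq_zero (fun s => (h1 s).differentiableAt)
      (fun s => (h1 s).deriv) s 0
    simp only [h.zero, Equiv.symm_apply_apply] at h2
    exact h2
  · intro hi p
    have h1 := hcurve 0 p
    have h2 : (fun s => η ((φ : Equiv.Perm (Phase (n + 1))).symm
        (Λ s ((φ : Equiv.Perm (Phase (n + 1))) p)))) = fun _ => η p := funext fun s => hi s p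
    rw [h2] at h1
    have h3 := h1.unique (hasDerivAt_const (0 : ℝ) (η p))
    rw [h.zero, Equiv.symm_apply_apply, ← hamField_eqV] at h3
    exact h3

/-- Functions with the same Hamiltonian vector field which are equal far away. -/
lemma eq_of_hamV_eq {f g : Phase (n + 1) → ℝ} (hf : Differentiable ℝ f)
    (hg : Differentiable ℝ g) (h : ∀ p, hamV f p = hamV g p) (R : ℝ)
    (hR : ∀ p, R < ‖p‖ → f p = g p) (p : Phase (n + 1)) : f p = g p := by
  have h1 : ∀ p, fderiv ℝ (fun q => f q - g q) p = 0 := by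
    intro p
    rw [fderiv_fun_sub (hf p) (hg p)]
    ext v
    have h2 := omegaStd_hamV f p v
    have h3 := omegaStd_hamV g p v
    rw [h p, h3] at h2
    simp only [sub_apply, zero_apply]
    linarith
  obtain ⟨q, hq⟩ : ∃ q : Phase (n + 1), R < ‖q‖ := by
    have hnorm : ‖(eX 0 : Phase (n + 1))‖ = 1 := by simp [eX]
    refine ⟨(|R| + 1) • eX 0, ?_⟩
    rw [norm_smul, hnorm, mul_one, Real.norm_eq_abs, abs_of_nonneg (by positivity)]
    have := le_abs_self R
    linarith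
  have h2 := is_const_of_fderiv_eq_zero (𝕜 := ℝ) (hf.sub hg) h1 p q
  have h3 : f p - g p = f q - g q := h2
  rw [hR q hq, sub_self] at h3
  linarith

/-- **B**: equal functions and equal circles. -/
lemma HamCircle.eq_iff {ν : Phase (n + 1) → ℝ}
    {Λ : ℝ → Phase (n + 1) →L[ℝ] Phase (n + 1)} (h : HamCircle ν Λ) (φ ψ : SympCt (n + 1)) :
    (∀ p, ν ((ψ : Equiv.Perm (Phase (n + 1))) p) = ν ((φ : Equiv.Perm (Phase (n + 1))) p)) ↔
      ∀ s p, (ψ : Equiv.Perm (Phase (n + 1))) ((φ : Equiv.Perm (Phase (n + 1))).symm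
        (Λ s ((φ : Equiv.Perm (Phase (n + 1))) p))) =
        Λ s ((ψ : Equiv.Perm (Phase (n + 1))) p) := by
  have hν : Differentiable ℝ ν := h.smooth.differentiable (by simp)
  constructor
  · intro he s p
    have h1 : (fun p => ν ((φ : Equiv.Perm (Phase (n + 1))) p)) =
        fun p => ν ((ψ : Equiv.Perm (Phase (n + 1))) p) := funext fun p => (he p).symm
    have h2 := fun s => h.orb_comp φ s p
    rw [h1] at h2
    have h3 := h.uniq_comp ψ _ h2 s
    rw [h.zero, Equiv.symm_apply_apply] at h3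
    exact h3
  · intro he
    obtain ⟨R, -, hφ, -⟩ := exists_symp_radius φ 0
    obtain ⟨R', hR', hψ, -⟩ := exists_symp_radius ψ R
    refine eq_of_hamV_eq (hν.comp (SympCt.differentiable ψ))
      (hν.comp (SympCt.differentiable φ)) (fun p => ?_) R' fun p hp => ?_
    · have h1 := h.orb_comp φ 0 p
      have h2 := h.orb_comp ψ 0 p
      have h3 : (fun s => (φ : Equiv.Perm (Phase (n + 1))).symm
          (Λ s ((φ : Equiv.Perm (Phase (n + 1))) p))) =
          fun s => (ψ : Equiv.Perm (Phase (n + 1))).symm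
            (Λ s ((ψ : Equiv.Perm (Phase (n + 1))) p)) := by
        funext s
        rw [Equiv.eq_symm_apply]
        exact he s p
      rw [← h3] at h2
      have h4 := h2.unique h1
      simp only [h.zero, Equiv.symm_apply_apply] at h4
      exact h4
    · show ν ((ψ : Equiv.Perm (Phase (n + 1))) p) = ν ((φ : Equiv.Perm (Phase (n + 1))) p)
      rw [hψ p hp, hφ p (hR'.trans_lt hp)]

/-- Invariance of the first coordinate: symplectomorphisms with `z_0 ∘ χ` invariant under `Λ`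
commute with `Λ` (module Comm). -/
def CommP {n : ℕ} (Λ : ℝ → Phase (n + 1) →L[ℝ] Phase (n + 1)) : Prop :=
  ∀ χ : SympCt (n + 1), (∀ s p, zz ((χ : Equiv.Perm (Phase (n + 1))) (Λ s p)) =
    zz ((χ : Equiv.Perm (Phase (n + 1))) p)) →
    ∀ s p, (χ : Equiv.Perm (Phase (n + 1))) (Λ s p) = Λ s ((χ : Equiv.Perm (Phase (n + 1))) p)

/-- **Fib**: the fibres of `φ ↦ (mu ∘ φ, ν i ∘ φ)`. -/
theorem fib (hFIB : St_FIB) (hEXP : St_EXP) (hBRK : St_BRK) {ι : Type}
    {ν : ι → Phase (n + 1) → ℝ} {Λ : ι → ℝ → Phase (n + 1) →L[ℝ] Phase (n + 1)}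
    (h : ∀ i, HamCircle (ν i) (Λ i)) (hC : ∀ i, CommP (Λ i)) (φ ψ : SympCt (n + 1)) :
    ((∀ p, mu ((ψ : Equiv.Perm (Phase (n + 1))) p) = mu ((φ : Equiv.Perm (Phase (n + 1))) p)) ∧
      ∀ i p, ν i ((ψ : Equiv.Perm (Phase (n + 1))) p) =
        ν i ((φ : Equiv.Perm (Phase (n + 1))) p)) ↔
    ∃ η : Phase (n + 1) → ℝ, ContDiff ℝ ∞ η ∧ HasCompactSupport η ∧
      (∀ p, fderiv ℝ η p
        (hamField (fun q => mu ((φ : Equiv.Perm (Phase (n + 1))) q)) p) = 0) ∧
      (∀ i p, fderiv ℝ η p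
        (hamField (fun q => ν i ((φ : Equiv.Perm (Phase (n + 1))) q)) p) = 0) ∧
      ∀ p, zz ((ψ : Equiv.Perm (Phase (n + 1))) p) =
        zz ((φ : Equiv.Perm (Phase (n + 1))) p) * Complex.exp (η p * Complex.I) := by
  constructor
  · rintro ⟨hmu, hνe⟩
    obtain ⟨η, hη, hc, hb, he⟩ := exists_phase hFIB hEXP hBRK φ ψ hmu
    refine ⟨η, hη, hc, hb, fun i => ?_, he⟩
    rw [(h i).bracket_iff φ hη]
    obtain ⟨R, -, hφ, -⟩ := exists_symp_radius φ 0
    obtain ⟨R', hR', h0⟩ := exists_radius_of_hasCompactSupport hc R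
    have ha : Ex R' (fun p => zz ((φ : Equiv.Perm (Phase (n + 1))) p)) :=
      (hBRK n).2.2.1 R' φ fun p hp => hφ p (hR'.trans_lt hp)
    have hB := ((h i).eq_iff φ ψ).1 (hνe i)
    intro s
    have hcs : Continuous (fun p => η ((φ : Equiv.Perm (Phase (n + 1))).symm
        (Λ i s ((φ : Equiv.Perm (Phase (n + 1))) p)))) := by
      have h1 : Continuous (fun p => ((φ⁻¹ : SympCt (n + 1)) : Equiv.Perm (Phase (n + 1))) p) :=
        (SympCt.differentiable φ⁻¹).continuous
      exact hη.continuous.comp (h1.comp ((Λ i s).continuous.comp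
        (SympCt.differentiable φ).continuous))
    have h1 := (hFIB n R').2 (fun p => zz ((φ : Equiv.Perm (Phase (n + 1))) p))
      (fun p => η ((φ : Equiv.Perm (Phase (n + 1))).symm
        (Λ i s ((φ : Equiv.Perm (Phase (n + 1))) p)))) η ha hcs hη.continuous
      (fun p hp => by
        have h2 : R < ‖Λ i s p‖ := by
          rw [(h i).norm]
          exact hR'.trans_lt hp
        have h3 : (φ : Equiv.Perm (Phase (n + 1))).symm (Λ i s p) = Λ i s p := by
          rw [Equiv.symm_apply_eq]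
          exact (hφ _ h2).symm
        show η ((φ : Equiv.Perm (Phase (n + 1))).symm
          (Λ i s ((φ : Equiv.Perm (Phase (n + 1))) p))) = 0
        rw [hφ p (hR'.trans_lt hp), h3]
        apply h0
        rw [(h i).norm]
        exact hp)
      h0 (fun p => by
        have h2 := he ((φ : Equiv.Perm (Phase (n + 1))).symm
          (Λ i s ((φ : Equiv.Perm (Phase (n + 1))) p)))
        rw [hB s p, (h i).z, Equiv.apply_symm_apply, (h i).z, he p] at h2
        exact h2.symm)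
    exact fun p => congrFun h1 p
  · rintro ⟨η, hη, hc, hb, hbν, he⟩
    refine ⟨fun p => ?_, fun i => ?_⟩
    · rw [mu_eq, mu_eq, he p, norm_mul, Complex.norm_exp_ofReal_mul_I, mul_one]
    rw [(h i).eq_iff φ ψ]
    have hi := ((h i).bracket_iff φ hη).1 (hbν i)
    have hz : ∀ s q, zz (((ψ * φ⁻¹ : SympCt (n + 1)) : Equiv.Perm (Phase (n + 1))) (Λ i s q)) =
        zz (((ψ * φ⁻¹ : SympCt (n + 1)) : Equiv.Perm (Phase (n + 1))) q) := by
      intro s q
      show zz ((ψ : Equiv.Perm (Phase (n + 1)))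
        ((φ : Equiv.Perm (Phase (n + 1))).symm (Λ i s q))) =
        zz ((ψ : Equiv.Perm (Phase (n + 1))) ((φ : Equiv.Perm (Phase (n + 1))).symm q))
      obtain ⟨p, rfl⟩ := (φ : Equiv.Perm (Phase (n + 1))).surjective q
      rw [Equiv.symm_apply_apply, he, he p, Equiv.apply_symm_apply, (h i).z, hi]
    intro s p
    have h1 := hC i (ψ * φ⁻¹) hz s ((φ : Equiv.Perm (Phase (n + 1))) p)
    have h2 : (ψ : Equiv.Perm (Phase (n + 1))) ((φ : Equiv.Perm (Phase (n + 1))).symm
        (Λ i s ((φ : Equiv.Perm (Phase (n + 1))) p))) =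
        Λ i s ((ψ : Equiv.Perm (Phase (n + 1))) ((φ : Equiv.Perm (Phase (n + 1))).symm
          ((φ : Equiv.Perm (Phase (n + 1))) p))) := h1
    rw [Equiv.symm_apply_apply] at h2
    exact h2

/-- **Fib (3)**: every phase whose brackets are zero occurs, exactly once. -/
theorem fib_exists_unique (hFIB : St_FIB) (hEXP : St_EXP) (hBRK : St_BRK) (hEXR : St_EXR)
    (hUNI : St_UNI) {ι : Type}
    {ν : ι → Phase (n + 1) → ℝ} {Λ : ι → ℝ → Phase (n + 1) →L[ℝ] Phase (n + 1)}
    (h : ∀ i, HamCircle (ν i) (Λ i)) (hC : ∀ i, CommP (Λ i)) (φ : SympCt (n + 1))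
    (η : Phase (n + 1) → ℝ) (hη : ContDiff ℝ ∞ η) (hc : HasCompactSupport η)
    (hb : ∀ p, fderiv ℝ η p
      (hamField (fun q => mu ((φ : Equiv.Perm (Phase (n + 1))) q)) p) = 0)
    (hbν : ∀ i p, fderiv ℝ η p
      (hamField (fun q => ν i ((φ : Equiv.Perm (Phase (n + 1))) q)) p) = 0) :
    ∃! ψ : SympCt (n + 1), (∀ p, zz ((ψ : Equiv.Perm (Phase (n + 1))) p) =
        zz ((φ : Equiv.Perm (Phase (n + 1))) p) * Complex.exp (η p * Complex.I)) ∧
      (∀ p, mu ((ψ : Equiv.Perm (Phase (n + 1))) p) =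
        mu ((φ : Equiv.Perm (Phase (n + 1))) p)) ∧
      ∀ i p, ν i ((ψ : Equiv.Perm (Phase (n + 1))) p) =
        ν i ((φ : Equiv.Perm (Phase (n + 1))) p) := by
  obtain ⟨ψ, hψ, hu⟩ := exists_unique_of_phase hEXP hBRK hEXR hUNI φ η hη hc hb
  have h1 := (fib hFIB hEXP hBRK h hC φ ψ).2 ⟨η, hη, hc, hb, hbν, hψ⟩
  exact ⟨ψ, ⟨hψ, h1.1, h1.2⟩, fun ψ' hψ' => hu ψ' hψ'.1⟩

end Pool.Agent.TOS
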