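import Pool.Agent.CRC.Defs

/-!
# TOS: Hamiltonian torus actions on `ℝ^{2n+2}` which are standard at infinity: definitions

`S` is a set of indices of complex coordinates `z_j`. Folder `Pool/Agent/TOS`, for MP_ec5dc5_gt; page
`R21_MP_ec5dc5_gt.md` (helper88) in the team store.
-/

set_option autoImplicit false

open scoped ContDiff Distributions Topology
open Set Function TopologicalSpace

namespace Pool.Agent.TOS

open Pool.Agent.Helper17 Pool.Agent.Helper42 Pool.Agent.CRC

/-- The complex coordinate `z_j = x_j + i y_j` of `ℝ^{2n+2}`. -/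
noncomputable def zzj {n : ℕ} (j : Fin (n + 1)) (p : Phase (n + 1)) : ℂ :=
  ⟨p (Sum.inl j), p (Sum.inr j)⟩

/-- The function `|z_j| ^ 2 / 2`; its Hamiltonian flow is the rotation of the coordinate `z_j`. -/
noncomputable def muj {n : ℕ} (j : Fin (n + 1)) (p : Phase (n + 1)) : ℝ :=
  (p (Sum.inl j) ^ 2 + p (Sum.inr j) ^ 2) / 2

lemma contDiff_muj {n : ℕ} (j : Fin (n + 1)) : ContDiff ℝ ∞ (muj j : Phase (n + 1) → ℝ) := by
  have h1 : ContDiff ℝ ∞ (fun p : Phase (n + 1) => p (Sum.inl j)) :=
    ContinuousLinearMap.contDiff (𝕜 := ℝ)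
      (EuclideanSpace.proj (Sum.inl j) : Phase (n + 1) →L[ℝ] ℝ)
  have h2 : ContDiff ℝ ∞ (fun p : Phase (n + 1) => p (Sum.inr j)) :=
    ContinuousLinearMap.contDiff (𝕜 := ℝ)
      (EuclideanSpace.proj (Sum.inr j) : Phase (n + 1) →L[ℝ] ℝ)
  exact ((h1.pow 2).add (h2.pow 2)).div_const 2

/-- The space of Hamiltonian actions of the torus with circle factors indexed by `S` on
`ℝ^{2n+2}` which are standard at infinity: families `f` of smooth functions `f j`, `j ∈ S`, equal to
`|z_j| ^ 2 / 2` outside a compact set, all of whose Hamiltonian orbits have period `2 π`, and with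
`{f j, f i} = 0` for all `i, j ∈ S`. -/
def TorHam (n : ℕ) (S : Finset (Fin (n + 1))) : Type :=
  {f : S → Phase (n + 1) → ℝ // (∀ j : S, ContDiff ℝ ∞ (f j) ∧
    (∃ K : Set (Phase (n + 1)), IsCompact K ∧ ∀ p ∉ K, f j p = muj j.1 p) ∧
    ∀ c : ℝ → Phase (n + 1), IsHamOrbit (f j) c → Function.Periodic c (2 * Real.pi)) ∧
    ∀ (i j : S) (p : Phase (n + 1)), fderiv ℝ (f i) p (hamField (f j) p) = 0}

/-- The elements of `TorHam n S` whose members are equal to the `|z_j| ^ 2 / 2` outside the compact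
set `K`. -/
def TSupp (n : ℕ) (S : Finset (Fin (n + 1))) (K : Compacts (Phase (n + 1))) : Type :=
  {f : TorHam n S // ∀ (j : S), ∀ p ∉ K, f.1 j p = muj j.1 p}

/-- The inclusion. -/
def TSupp.incl {n : ℕ} {S : Finset (Fin (n + 1))} (K : Compacts (Phase (n + 1))) :
    TSupp n S K → TorHam n S := Subtype.val

/-- The difference of the member `j` to `|z_j| ^ 2 / 2`, as an element of the Fréchet space of smooth
functions supported in `K`. -/
noncomputable def TSupp.disp {n : ℕ} {S : Finset (Fin (n + 1))} (K : Compacts (Phase (n + 1)))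
    (j : S) (f : TSupp n S K) : 𝓓_{K}(Phase (n + 1), ℝ) where
  toFun p := f.1.1 j p - muj j.1 p
  contDiff' := (f.1.2.1 j).1.sub (contDiff_muj j.1)
  zero_on_compl' := fun p hp => by
    have := f.2 j p hp
    simp [this]

/-- The `C^∞` topology on `TSupp n S K`: uniform convergence of all derivatives of all members. -/
noncomputable instance (n : ℕ) (S : Finset (Fin (n + 1))) (K : Compacts (Phase (n + 1))) :
    TopologicalSpace (TSupp n S K) :=
  ⨅ j : S, TopologicalSpace.induced (TSupp.disp K j) inferInstance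

/-- The direct limit topology on `TorHam n S`: the finest topology for which all the inclusions of
the spaces `TSupp n S K` are continuous. -/
noncomputable instance (n : ℕ) (S : Finset (Fin (n + 1))) : TopologicalSpace (TorHam n S) :=
  ⨆ K : Compacts (Phase (n + 1)), TopologicalSpace.coinduced (TSupp.incl K) inferInstance

lemma fderiv_muj {n : ℕ} (j : Fin (n + 1)) (p v : Phase (n + 1)) :
    fderiv ℝ (muj j : Phase (n + 1) → ℝ) p v =
    p (Sum.inl j) * v (Sum.inl j) + p (Sum.inr j) * v (Sum.inr j) := by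
  have h1 : HasFDerivAt (fun p : Phase (n + 1) => p (Sum.inl j))
      (EuclideanSpace.proj (Sum.inl j) : Phase (n + 1) →L[ℝ] ℝ) p :=
    (EuclideanSpace.proj (Sum.inl j) : Phase (n + 1) →L[ℝ] ℝ).hasFDerivAt
  have h2 : HasFDerivAt (fun p : Phase (n + 1) => p (Sum.inr j))
      (EuclideanSpace.proj (Sum.inr j) : Phase (n + 1) →L[ℝ] ℝ) p :=
    (EuclideanSpace.proj (Sum.inr j) : Phase (n + 1) →L[ℝ] ℝ).hasFDerivAt
  have h3 := ((h1.mul h1).add (h2.mul h2)).mul_const (2 : ℝ)⁻¹
  have h4 : (muj j : Phase (n + 1) → ℝ) =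
      fun p => (p (Sum.inl j) * p (Sum.inl j) + p (Sum.inr j) * p (Sum.inr j)) * (2 : ℝ)⁻¹ := by
    funext q
    rw [muj, div_eq_mul_inv, pow_two, pow_two]
  have h5 := h3.fderiv
  rw [h4]
  erw [h5]
  simp
  ring

lemma hamField_muj_inl {n : ℕ} (j i : Fin (n + 1)) (p : Phase (n + 1)) :
    (hamField (muj j) p) (Sum.inl i) = -(if i = j then p (Sum.inr j) else 0) := by
  simp only [hamField, fderiv_muj, Sum.elim_inl]
  by_cases h : i = j
  · subst h
    simp
  · have h' : j ≠ i := fun e => h e.symm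
    simp [h, h']

lemma hamField_muj_inr {n : ℕ} (j i : Fin (n + 1)) (p : Phase (n + 1)) :
    (hamField (muj j) p) (Sum.inr i) = if i = j then p (Sum.inl j) else 0 := by
  simp only [hamField, fderiv_muj, Sum.elim_inr]
  by_cases h : i = j
  · subst h
    simp
  · have h' : j ≠ i := fun e => h e.symm
    simp [h, h']

/-- The orbits of `|z_j| ^ 2 / 2` have period `2 π`. -/
lemma periodic_muj {n : ℕ} (j : Fin (n + 1)) (c : ℝ → Phase (n + 1)) (hc : IsHamOrbit (muj j) c) :
    Function.Periodic c (2 * Real.pi) := by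
  have hcoord : ∀ (k : Fin (n + 1) ⊕ Fin (n + 1)) (s : ℝ),
      HasDerivAt (fun s => (c s) k) ((hamField (muj j) (c s)) k) s := fun k s =>
    ((EuclideanSpace.proj k : Phase (n + 1) →L[ℝ] ℝ).hasFDerivAt).comp_hasDerivAt s (hc s)
  have hx : ∀ s, HasDerivAt (fun s => (c s) (Sum.inl j)) (-(c s) (Sum.inr j)) s := fun s => by
    have := hcoord (Sum.inl j) s
    rwa [hamField_muj_inl, if_pos rfl] at this
  have hy : ∀ s, HasDerivAt (fun s => (c s) (Sum.inr j)) ((c s) (Sum.inl j)) s := fun s => by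
    have := hcoord (Sum.inr j) s
    rwa [hamField_muj_inr, if_pos rfl] at this
  have hu : ∀ s, (c s) (Sum.inl j) * Real.cos s + (c s) (Sum.inr j) * Real.sin s =
      (c 0) (Sum.inl j) := by
    intro s
    have h1 : ∀ s, HasDerivAt (fun s => (c s) (Sum.inl j) * Real.cos s +
        (c s) (Sum.inr j) * Real.sin s) 0 s := by
      intro s
      have := ((hx s).mul (Real.hasDerivAt_cos s)).add ((hy s).mul (Real.hasDerivAt_sin s))
      refine this.congr_deriv ?_
      ring
    have h2 := is_const_of_deriv_eq_zero (fun s => (h1 s).differentiableAt)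
      (fun s => (h1 s).deriv) s 0
    simpa using h2
  have hv : ∀ s, (c s) (Sum.inr j) * Real.cos s - (c s) (Sum.inl j) * Real.sin s =
      (c 0) (Sum.inr j) := by
    intro s
    have h1 : ∀ s, HasDerivAt (fun s => (c s) (Sum.inr j) * Real.cos s -
        (c s) (Sum.inl j) * Real.sin s) 0 s := by
      intro s
      have := ((hy s).mul (Real.hasDerivAt_cos s)).sub ((hx s).mul (Real.hasDerivAt_sin s))
      refine this.congr_deriv ?_
      ring
    have h2 := is_const_of_deriv_eq_zero (fun s => (h1 s).differentiableAt)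
      (fun s => (h1 s).deriv) s 0
    simpa using h2
  have hX : ∀ s, (c s) (Sum.inl j) =
      (c 0) (Sum.inl j) * Real.cos s - (c 0) (Sum.inr j) * Real.sin s := by
    intro s
    rw [← hu s, ← hv s]
    have := Real.sin_sq_add_cos_sq s
    linear_combination (-(c s) (Sum.inl j)) * this
  have hY : ∀ s, (c s) (Sum.inr j) =
      (c 0) (Sum.inl j) * Real.sin s + (c 0) (Sum.inr j) * Real.cos s := by
    intro s
    rw [← hu s, ← hv s]
    have := Real.sin_sq_add_cos_sq s
    linear_combination (-(c s) (Sum.inr j)) * this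
  intro s
  ext k
  by_cases h0 : k = Sum.inl j
  · subst h0
    rw [hX, hX s, Real.cos_add_two_pi, Real.sin_add_two_pi]
  by_cases h1 : k = Sum.inr j
  · subst h1
    rw [hY, hY s, Real.cos_add_two_pi, Real.sin_add_two_pi]
  have hd : ∀ s, HasDerivAt (fun s => (c s) k) 0 s := by
    intro s
    have h2 := hcoord k s
    rcases k with i | i
    · rwa [hamField_muj_inl, if_neg (fun e => h0 (by rw [e])), neg_zero] at h2
    · rwa [hamField_muj_inr, if_neg (fun e => h1 (by rw [e]))] at h2
  exact is_const_of_deriv_eq_zero (fun s => (hd s).differentiableAt)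
    (fun s => (hd s).deriv) _ _

lemma fderiv_muj_hamField {n : ℕ} (i j : Fin (n + 1)) (p : Phase (n + 1)) :
    fderiv ℝ (muj i) p (hamField (muj j) p) = 0 := by
  rw [fderiv_muj, hamField_muj_inl, hamField_muj_inr]
  by_cases h : i = j
  · subst h
    simp
    ring
  · simp [h]

/-- The family of the functions `|z_j| ^ 2 / 2`, as a point of `TorHam n S`. -/
noncomputable def TorHam.std {n : ℕ} {S : Finset (Fin (n + 1))} : TorHam n S :=
  ⟨fun j => muj j.1, fun j => ⟨contDiff_muj j.1, ⟨∅, isCompact_empty, fun _ _ => rfl⟩,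
    periodic_muj j.1⟩, fun i j p => fderiv_muj_hamField i.1 j.1 p⟩

/-- The homotopy group `π_k` of the space `TorHam n S` of torus actions on `ℝ^{2n+2}` standard at
infinity, with base point the family of the `|z_j| ^ 2 / 2`; for `k = 0` the set of path
components. -/
abbrev PiT (k n : ℕ) (S : Finset (Fin (n + 1))) : Type :=
  HomotopyGroup (Fin k) (TorHam n S) TorHam.std

/-- The continuous maps of the cube `[0,1]^k` to `TorHam n S` which are standard on the boundary. -/
def LoopT (k n : ℕ) (S : Finset (Fin (n + 1))) : Type := GenLoop (Fin k) (TorHam n S) TorHam.std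

/-- The Hamiltonian `j` with parameter `t`. -/
noncomputable def LoopT.at {k n : ℕ} {S : Finset (Fin (n + 1))} (f : LoopT k n S)
    (t : Fin k → unitInterval) (j : S) : Phase (n + 1) → ℝ := (f.1 t).1 j

/-- The class in the homotopy group. -/
noncomputable def LoopT.cls {k n : ℕ} {S : Finset (Fin (n + 1))} (f : LoopT k n S) : PiT k n S :=
  Quotient.mk _ f

/-- The family `f` of tuples of Hamiltonians is the family of the functions `|z_j ∘ φ| ^ 2 / 2`. -/
def IsMomentT {k n : ℕ} {S : Finset (Fin (n + 1))} (φ : LoopG k (n + 1)) (f : LoopT k n S) : Prop :=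
  ∀ t (j : S) p, f.at t j p = muj j.1 (φ.at t p)

/-- The function `|z_j ∘ φ| ^ 2 / 2`. -/
noncomputable def momentj {n : ℕ} (j : Fin (n + 1)) (φ : SympCt (n + 1)) (p : Phase (n + 1)) : ℝ :=
  muj j ((φ : Equiv.Perm (Phase (n + 1))) p)

/-- `η` is a smooth function with compact support whose Poisson brackets with the functions
`|z_j ∘ φ| ^ 2 / 2`, `j ∈ S`, are zero: it is constant on the orbits of the torus action. -/
def IsInvariantT {n : ℕ} (S : Finset (Fin (n + 1))) (φ : SympCt (n + 1))
    (η : Phase (n + 1) → ℝ) : Prop :=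
  ContDiff ℝ ∞ η ∧ HasCompactSupport η ∧
    ∀ j ∈ S, ∀ p, fderiv ℝ η p (hamField (momentj j φ) p) = 0

/-- `z_j ∘ ψ = e^{i η} (z_j ∘ φ)`. -/
def IsTwistj {n : ℕ} (j : Fin (n + 1)) (φ : SympCt (n + 1)) (η : Phase (n + 1) → ℝ)
    (ψ : SympCt (n + 1)) : Prop :=
  ∀ p, zzj j ((ψ : Equiv.Perm (Phase (n + 1))) p) =
    zzj j ((φ : Equiv.Perm (Phase (n + 1))) p) * Complex.exp (η p * Complex.I)

end Pool.Agent.TOS
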