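import Pool.Agent.TOR.Avg
import Pool.Agent.TOS.Defs
import Pool.Agent.Helper42.Susp.PairMap

/-!
# TOS: exchange of two complex coordinates
-/

set_option autoImplicit false

open scoped ContDiff Topology
open Set Function TopologicalSpace

namespace Pool.Agent.TOS

open Pool.Agent.Helper17 Pool.Agent.Helper42 Pool.Agent.H50.Susp Pool.Agent.CRC Pool.Agent.TOR

variable {n : ℕ}

/-- exchange of the coordinates `z_0` and `z_j` -/
noncomputable def Pj (j : Fin (n + 1)) : Phase (n + 1) →L[ℝ] Phase (n + 1) :=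
  (LinearIsometryEquiv.piLpCongrLeft 2 ℝ ℝ
    (Equiv.sumCongr (Equiv.swap 0 j) (Equiv.swap 0 j))).toContinuousLinearEquiv.toContinuousLinearMap

lemma Pj_inl (j : Fin (n + 1)) (p : Phase (n + 1)) (i : Fin (n + 1)) :
    (Pj j p) (Sum.inl i) = p (Sum.inl (Equiv.swap 0 j i)) := by
  have h : (Pj j p) (Sum.inl i) = p ((Equiv.sumCongr (Equiv.swap 0 j) (Equiv.swap 0 j)).symm
    (Sum.inl i)) := rfl
  rw [h]
  simp

lemma Pj_inr (j : Fin (n + 1)) (p : Phase (n + 1)) (i : Fin (n + 1)) :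
    (Pj j p) (Sum.inr i) = p (Sum.inr (Equiv.swap 0 j i)) := by
  have h : (Pj j p) (Sum.inr i) = p ((Equiv.sumCongr (Equiv.swap 0 j) (Equiv.swap 0 j)).symm
    (Sum.inr i)) := rfl
  rw [h]
  simp

@[simp] lemma norm_Pj (j : Fin (n + 1)) (p : Phase (n + 1)) : ‖Pj j p‖ = ‖p‖ :=
  (LinearIsometryEquiv.piLpCongrLeft 2 ℝ ℝ
    (Equiv.sumCongr (Equiv.swap 0 j) (Equiv.swap 0 j))).norm_map p

@[simp] lemma Pj_Pj (j : Fin (n + 1)) (p : Phase (n + 1)) : Pj j (Pj j p) = p := by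
  ext k
  rcases k with k | k
  · rw [Pj_inl, Pj_inl]; simp
  · rw [Pj_inr, Pj_inr]; simp

lemma omegaStd_Pj (j : Fin (n + 1)) (u v : Phase (n + 1)) :
    omegaStd (Pj j u) (Pj j v) = omegaStd u v := by
  unfold omegaStd
  simp only [Pj_inl, Pj_inr]
  exact Equiv.sum_comp (Equiv.swap 0 j) (fun i : Fin (n + 1) =>
    u (Sum.inl i) * v (Sum.inr i) - u (Sum.inr i) * v (Sum.inl i))

lemma Pj_zero (p : Phase (n + 1)) : Pj 0 p = p := by
  ext k
  rcases k with k | k
  · rw [Pj_inl]; simp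
  · rw [Pj_inr]; simp

lemma zzj_eq (j : Fin (n + 1)) (p : Phase (n + 1)) : zzj j p = zz (Pj j p) := by
  apply Complex.ext
  · show p (Sum.inl j) = (Pj j p) (Sum.inl 0)
    rw [Pj_inl]; simp
  · show p (Sum.inr j) = (Pj j p) (Sum.inr 0)
    rw [Pj_inr]; simp

lemma muj_eq (j : Fin (n + 1)) (p : Phase (n + 1)) : muj j p = mu (Pj j p) := by
  unfold muj mu
  rw [Pj_inl, Pj_inr]; simp

lemma muj_norm (j : Fin (n + 1)) (p : Phase (n + 1)) : muj j p = ‖zzj j p‖ ^ 2 / 2 := by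
  rw [muj_eq, zzj_eq, mu_eq]

lemma zzj_Pj (i j : Fin (n + 1)) (p : Phase (n + 1)) : zzj i (Pj j p) = zzj (Equiv.swap 0 j i) p := by
  unfold zzj
  rw [Pj_inl, Pj_inr]

lemma muj_Pj (i j : Fin (n + 1)) (p : Phase (n + 1)) :
    muj i (Pj j p) = muj (Equiv.swap 0 j i) p := by
  unfold muj
  rw [Pj_inl, Pj_inr]

lemma contDiff_zzj (j : Fin (n + 1)) : ContDiff ℝ ∞ (zzj j : Phase (n + 1) → ℂ) := by
  have h : (zzj j : Phase (n + 1) → ℂ) = fun p => zz (Pj j p) := funext (zzj_eq j)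
  rw [h]
  exact contDiff_zz.comp (Pj j).contDiff

lemma hamV_Pj {f : Phase (n + 1) → ℝ} (hf : Differentiable ℝ f) (j : Fin (n + 1))
    (p : Phase (n + 1)) : hamV (fun q => f (Pj j q)) p = Pj j (hamV f (Pj j p)) := by
  rw [← map_hamV_lin hf (Pj j) (omegaStd_Pj j), Pj_Pj]

/-! ### orbits -/

lemma orbit_Pj {f : Phase (n + 1) → ℝ} (hf : Differentiable ℝ f) (j : Fin (n + 1))
    {c : ℝ → Phase (n + 1)} (hc : IsHamOrbit (fun q => f (Pj j q)) c) :
    IsHamOrbit f (fun s => Pj j (c s)) := by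
  intro s
  have h := (Pj j).hasFDerivAt.comp_hasDerivAt s (hc s)
  rw [hamField_eqV, hamV_Pj hf] at h
  rw [hamField_eqV]
  refine h.congr_deriv ?_
  exact Pj_Pj j _

/-- a circle Hamiltonian at the coordinate `j`, standard outside the ball of radius `R` -/
structure Circj (j : Fin (n + 1)) (R : ℝ) (f : Phase (n + 1) → ℝ) : Prop where
  smooth : ContDiff ℝ ∞ f
  std : ∀ p, R < ‖p‖ → f p = muj j p
  per : ∀ c : ℝ → Phase (n + 1), IsHamOrbit f c → Function.Periodic c (2 * Real.pi)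

lemma Circj.circ {j : Fin (n + 1)} {R : ℝ} {f : Phase (n + 1) → ℝ} (h : Circj j R f) :
    Circ R (fun p => f (Pj j p)) where
  smooth := h.smooth.comp (Pj j).contDiff
  std p hp := by
    rw [h.std _ (by rw [norm_Pj]; exact hp), muj_eq, Pj_Pj]
  per c hc := by
    have h1 := h.per _ (orbit_Pj (h.smooth.differentiable (by simp)) j hc)
    intro s
    have h2 := h1 s
    simp only at h2
    rw [← Pj_Pj j (c (s + 2 * Real.pi)), h2, Pj_Pj]

lemma Circj.of_circ {j : Fin (n + 1)} {R : ℝ} {f : Phase (n + 1) → ℝ}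
    (h : Circ R (fun p => f (Pj j p))) : Circj j R f := by
  have h0 : f = fun q => (fun p => f (Pj j p)) (Pj j q) := by
    funext q; simp
  have hs : ContDiff ℝ ∞ f := by
    rw [h0]; exact h.smooth.comp (Pj j).contDiff
  refine ⟨hs, fun p hp => ?_, fun c hc => ?_⟩
  · have h1 := h.std (Pj j p) (by rw [norm_Pj]; exact hp)
    simp only [Pj_Pj] at h1
    rw [h1, muj_eq]
  · rw [h0] at hc
    have h1 := h.per _ (orbit_Pj (f := fun p => f (Pj j p)) (h.smooth.differentiable (by simp)) j hc)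
    intro s
    have h2 := h1 s
    simp only at h2
    rw [← Pj_Pj j (c (s + 2 * Real.pi)), h2, Pj_Pj]

lemma circj_zero {R : ℝ} {f : Phase (n + 1) → ℝ} : Circj 0 R f ↔ Circ R f := by
  constructor
  · intro h
    have h1 := h.circ
    have h2 : (fun p => f (Pj 0 p)) = f := funext fun p => by rw [Pj_zero]
    rwa [h2] at h1
  · intro h
    apply Circj.of_circ
    have h2 : (fun p => f (Pj 0 p)) = f := funext fun p => by rw [Pj_zero]
    rwa [h2]

/-! ### conjugation -/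

/-- the exchange of `z_0` and `z_j` as a permutation -/
noncomputable def Pe (j : Fin (n + 1)) : Equiv.Perm (Phase (n + 1)) where
  toFun := Pj j
  invFun := Pj j
  left_inv := Pj_Pj j
  right_inv := Pj_Pj j

/-- conjugation with the exchange of `z_0` and `z_j` -/
noncomputable def conj (j : Fin (n + 1)) (φ : SympCt (n + 1)) : SympCt (n + 1) :=
  ⟨Pe j * (φ : Equiv.Perm (Phase (n + 1))) * Pe j, by
    obtain ⟨h1, h2, h3, K, hK, h4⟩ := φ.2
    refine ⟨(Pj j).contDiff.comp (h1.comp (Pj j).contDiff),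
      (Pj j).contDiff.comp (h2.comp (Pj j).contDiff), ?_, Pj j '' K, hK.image (Pj j).continuous, ?_⟩
    · intro p u v
      have h5 : HasFDerivAt (fun q => Pj j ((φ : Equiv.Perm (Phase (n + 1))) (Pj j q)))
          ((Pj j).comp ((fderiv ℝ (φ : Equiv.Perm (Phase (n + 1))) (Pj j p)).comp (Pj j))) p :=
        (Pj j).hasFDerivAt.comp p
          (((h1.differentiable (by simp)) (Pj j p)).hasFDerivAt.comp p (Pj j).hasFDerivAt)
      have h6 : fderiv ℝ (Pe j * (φ : Equiv.Perm (Phase (n + 1))) * Pe j :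
          Equiv.Perm (Phase (n + 1))) p =
          (Pj j).comp ((fderiv ℝ (φ : Equiv.Perm (Phase (n + 1))) (Pj j p)).comp (Pj j)) :=
        h5.fderiv
      rw [h6]
      simp only [ContinuousLinearMap.comp_apply]
      rw [omegaStd_Pj, h3, omegaStd_Pj]
    · intro p hp
      show Pj j ((φ : Equiv.Perm (Phase (n + 1))) (Pj j p)) = p
      rw [h4 (Pj j p) (fun h => hp ⟨Pj j p, h, Pj_Pj j p⟩), Pj_Pj]⟩

lemma conj_apply (j : Fin (n + 1)) (φ : SympCt (n + 1)) (p : Phase (n + 1)) :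
    (conj j φ : Equiv.Perm (Phase (n + 1))) p =
      Pj j ((φ : Equiv.Perm (Phase (n + 1))) (Pj j p)) := rfl

lemma conj_conj (j : Fin (n + 1)) (φ : SympCt (n + 1)) : conj j (conj j φ) = φ :=
  SympCt.ext' fun x => by rw [conj_apply, conj_apply, Pj_Pj, Pj_Pj]

lemma conj_mul (j : Fin (n + 1)) (φ ψ : SympCt (n + 1)) : conj j (φ * ψ) = conj j φ * conj j ψ :=
  SympCt.ext' fun x => by
    show Pj j ((φ : Equiv.Perm (Phase (n + 1))) ((ψ : Equiv.Perm (Phase (n + 1))) (Pj j x))) =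
      Pj j ((φ : Equiv.Perm (Phase (n + 1))) (Pj j
        (Pj j ((ψ : Equiv.Perm (Phase (n + 1))) (Pj j x)))))
    rw [Pj_Pj]

lemma conj_one (j : Fin (n + 1)) : conj j (1 : SympCt (n + 1)) = 1 :=
  SympCt.ext' fun x => by
    show Pj j (Pj j x) = x
    rw [Pj_Pj]

lemma conj_inv (j : Fin (n + 1)) (φ : SympCt (n + 1)) : conj j φ⁻¹ = (conj j φ)⁻¹ := by
  rw [eq_comm, inv_eq_iff_mul_eq_one, ← conj_mul, mul_inv_cancel, conj_one]

lemma CF_Pj (j : Fin (n + 1)) {T : Type} [TopologicalSpace T] :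
    CF (fun (_ : T) (p : Phase (n + 1)) => Pj j p) := CF.const (Pj j).contDiff

lemma continuous_conj (j : Fin (n + 1)) :
    Continuous (conj j : SympCt (n + 1) → SympCt (n + 1)) := by
  rw [continuous_iSup_dom]
  intro K
  rw [continuous_coinduced_dom]
  refine continuous_of_CF (F := fun (t : SympSupp (n + 1) K) x =>
    Pj j ((t.1 : Equiv.Perm (Phase (n + 1))) (Pj j x))) ?_
    ⟨Pj j '' K, K.isCompact.image (Pj j).continuous⟩ ?_ (fun t x => rfl)
  · exact CF.comp (CF_Pj j) (CF.comp (CF_supp K) (CF_Pj j))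
  · intro t x hx
    rw [t.2 (Pj j x) (fun h => hx ⟨Pj j x, h, Pj_Pj j x⟩), Pj_Pj]

/-! ### the rotation of the coordinate `z_i` -/

/-- the rotation of the coordinate `z_i` by the angle `s` -/
noncomputable def rotj (i : Fin (n + 1)) (s : ℝ) : Phase (n + 1) →L[ℝ] Phase (n + 1) :=
  (Pj i).comp ((rotL n s).comp (Pj i))

lemma rotj_apply (i : Fin (n + 1)) (s : ℝ) (p : Phase (n + 1)) :
    rotj i s p = Pj i (rot s (Pj i p)) := rfl

lemma rotj_zero' (s : ℝ) (p : Phase (n + 1)) : rotj 0 s p = rot s p := by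
  rw [rotj_apply, Pj_zero, Pj_zero]

lemma zzj_rotj_self (i : Fin (n + 1)) (s : ℝ) (p : Phase (n + 1)) :
    zzj i (rotj i s p) = Complex.exp (s * Complex.I) * zzj i p := by
  rw [zzj_eq, rotj_apply, Pj_Pj, zz_rot, ← zzj_eq]

lemma rot_inl_ne {k : Fin (n + 1)} (hk : k ≠ 0) (s : ℝ) (p : Phase (n + 1)) :
    (rot s p) (Sum.inl k) = p (Sum.inl k) := by
  obtain ⟨m, rfl⟩ := Fin.exists_succ_eq.2 hk
  rw [← wW_inl, ← wW_inl, wW_rot]

lemma rot_inr_ne {k : Fin (n + 1)} (hk : k ≠ 0) (s : ℝ) (p : Phase (n + 1)) :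
    (rot s p) (Sum.inr k) = p (Sum.inr k) := by
  obtain ⟨m, rfl⟩ := Fin.exists_succ_eq.2 hk
  rw [← wW_inr, ← wW_inr, wW_rot]

lemma zzj_rot_ne {k : Fin (n + 1)} (hk : k ≠ 0) (s : ℝ) (p : Phase (n + 1)) :
    zzj k (rot s p) = zzj k p := by
  unfold zzj
  rw [rot_inl_ne hk, rot_inr_ne hk]

lemma swap_ne_zero {i k : Fin (n + 1)} (h : k ≠ i) : Equiv.swap 0 i k ≠ 0 := by
  intro h1
  apply h
  have h2 := congrArg (Equiv.swap 0 i) h1
  rw [Equiv.swap_apply_self, Equiv.swap_apply_left] at h2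
  exact h2

lemma zzj_rotj_ne {i k : Fin (n + 1)} (h : k ≠ i) (s : ℝ) (p : Phase (n + 1)) :
    zzj k (rotj i s p) = zzj k p := by
  rw [rotj_apply, zzj_Pj, zzj_rot_ne (swap_ne_zero h), zzj_Pj, Equiv.swap_apply_self]

lemma ext_zzj {p q : Phase (n + 1)} (h : ∀ k, zzj k p = zzj k q) : p = q := by
  ext k
  rcases k with k | k
  · exact congrArg Complex.re (h k)
  · exact congrArg Complex.im (h k)

lemma rotj_add (i : Fin (n + 1)) (s r : ℝ) (p : Phase (n + 1)) :
    rotj i (s + r) p = rotj i s (rotj i r p) := by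
  rw [rotj_apply, rotj_apply, rotj_apply, Pj_Pj, rot_add]

lemma rotj_zero (i : Fin (n + 1)) (p : Phase (n + 1)) : rotj i 0 p = p := by
  rw [rotj_apply, rot_zero, Pj_Pj]

lemma rotj_two_pi (i : Fin (n + 1)) (p : Phase (n + 1)) : rotj i (2 * Real.pi) p = p := by
  have h := rot_two_pi 0 (Pj i p)
  rw [zero_add, rot_zero] at h
  rw [rotj_apply, h, Pj_Pj]

lemma norm_rotj (i : Fin (n + 1)) (s : ℝ) (p : Phase (n + 1)) : ‖rotj i s p‖ = ‖p‖ := by
  rw [rotj_apply, norm_Pj, norm_rot, norm_Pj]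

lemma omegaStd_rotj (i : Fin (n + 1)) (s : ℝ) (u v : Phase (n + 1)) :
    omegaStd (rotj i s u) (rotj i s v) = omegaStd u v := by
  rw [rotj_apply, rotj_apply, omegaStd_Pj, omegaStd_rot, omegaStd_Pj]

lemma CF_rotj (i : Fin (n + 1)) : CF (fun (s : ℝ) (p : Phase (n + 1)) => rotj i s p) := by
  have h1 : CF (fun (s : ℝ) (p : Phase (n + 1)) => rot s (Pj i p)) := CF.comp CF_rot (CF_Pj i)
  have h2 : CF (fun (s : ℝ) (p : Phase (n + 1)) => Pj i (rot s (Pj i p))) :=
    CF.comp (F := fun (_ : ℝ) (p : Phase (n + 1)) => Pj i p) (CF_Pj i) h1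
  exact h2

lemma muj_rotj (k i : Fin (n + 1)) (s : ℝ) (p : Phase (n + 1)) :
    muj k (rotj i s p) = muj k p := by
  rw [muj_norm, muj_norm]
  by_cases h : k = i
  · subst h
    rw [zzj_rotj_self, norm_mul, Complex.norm_exp_ofReal_mul_I, one_mul]
  · rw [zzj_rotj_ne h]

lemma rotj_comm (i k : Fin (n + 1)) (s r : ℝ) (p : Phase (n + 1)) :
    rotj i s (rotj k r p) = rotj k r (rotj i s p) := by
  apply ext_zzj
  intro l
  by_cases hi : l = i
  · subst hi
    by_cases hk : l = k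
    · subst hk
      rw [zzj_rotj_self, zzj_rotj_self, zzj_rotj_self, zzj_rotj_self]
      ring
    · rw [zzj_rotj_self, zzj_rotj_ne hk, zzj_rotj_ne hk, zzj_rotj_self]
  · by_cases hk : l = k
    · subst hk
      rw [zzj_rotj_ne hi, zzj_rotj_self, zzj_rotj_self, zzj_rotj_ne hi]
    · rw [zzj_rotj_ne hi, zzj_rotj_ne hk, zzj_rotj_ne hk, zzj_rotj_ne hi]

/-- exchange of coordinates and rotations -/
lemma Pj_rotj (j i : Fin (n + 1)) (s : ℝ) (p : Phase (n + 1)) :
    Pj j (rotj i s (Pj j p)) = rotj (Equiv.swap 0 j i) s p := by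
  apply ext_zzj
  intro l
  rw [zzj_Pj]
  by_cases h : Equiv.swap 0 j l = i
  · subst h
    rw [zzj_rotj_self, zzj_Pj, Equiv.swap_apply_self, zzj_rotj_self]
  · have h' : l ≠ Equiv.swap 0 j i := by
      intro e
      apply h
      rw [e, Equiv.swap_apply_self]
    rw [zzj_rotj_ne h, zzj_Pj, Equiv.swap_apply_self, zzj_rotj_ne h']

/-- the rotations of the coordinates `z_i`, `i ≠ 0`, fix `z_0` -/
lemma linCircle_rotj {i : Fin (n + 1)} (hi : i ≠ 0) : LinCircle (rotj i : ℝ → _) where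
  cf := CF_rotj i
  add := rotj_add i
  per := rotj_two_pi i
  norm := norm_rotj i
  symp := omegaStd_rotj i
  z s p := by
    have h := zzj_rotj_ne (Ne.symm hi) s p
    rw [zzj_eq, zzj_eq, Pj_zero, Pj_zero] at h
    exact h

lemma hasDerivAt_rotj (i : Fin (n + 1)) (s : ℝ) (p : Phase (n + 1)) :
    HasDerivAt (fun s => rotj i s p) (hamV (muj i) (rotj i s p)) s := by
  have h := (Pj i).hasFDerivAt.comp_hasDerivAt s (hasDerivAt_rot s (Pj i p))
  have h2 : (muj i : Phase (n + 1) → ℝ) = fun q => mu (Pj i q) := funext (muj_eq i)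
  refine h.congr_deriv ?_
  rw [h2, hamV_Pj (contDiff_mu.differentiable (by simp)), rotj_apply, Pj_Pj]

/-- the Hamiltonian orbits of `|z_i| ^ 2 / 2` -/
lemma orbit_muj (i : Fin (n + 1)) {c : ℝ → Phase (n + 1)} (hc : IsHamOrbit (muj i) c) (s : ℝ) :
    c s = rotj i s (c 0) := by
  have h2 : (muj i : Phase (n + 1) → ℝ) = fun q => mu (Pj i q) := funext (muj_eq i)
  rw [h2] at hc
  have h3 := orbit_Pj (contDiff_mu.differentiable (by simp)) i hc
  have h4 := rot_uniq (fun s => Pj i (c s)) (fun s => by rw [← hamField_eqV]; exact h3 s) s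
  rw [rotj_apply, ← h4, Pj_Pj]

/-! ### the results of the circle theorem at the coordinate `j` -/

/-- `z_j ∘ φ` determines `φ` -/
theorem uni_j (hUNI : St_UNI) (j : Fin (n + 1)) (φ ψ : SympCt (n + 1))
    (h : ∀ p, zzj j ((φ : Equiv.Perm (Phase (n + 1))) p) =
      zzj j ((ψ : Equiv.Perm (Phase (n + 1))) p)) : φ = ψ := by
  have h1 : conj j φ = conj j ψ := by
    apply hUNI n
    intro p
    rw [conj_apply, conj_apply, ← zzj_eq, ← zzj_eq]
    exact h _
  rw [← conj_conj j φ, h1, conj_conj]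

/-- the lifting property for families of circle Hamiltonians at the coordinate `j` -/
theorem lift_j (hMUC : St_MUC) (hTOP : St_TOP) (hLFA : St_LFA) (j : Fin (n + 1))
    (T : Type) [TopologicalSpace T] [CompactSpace T] [T2Space T] (R : ℝ)
    (f : T → Phase (n + 1) → ℝ) (hf : CF f) (hc : ∀ t, Circj j R (f t)) (N T₀ : Set T)
    (hN : IsClosed N) (hT₀ : IsClosed T₀) (hs : T₀ ⊆ interior N) (g : C(N, SympCt (n + 1)))
    (hg : ∀ (t : N) p, muj j ((g t : Equiv.Perm (Phase (n + 1))) p) = f t p) :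
    ∃ G : C(T, SympCt (n + 1)), (∀ t p, muj j ((G t : Equiv.Perm (Phase (n + 1))) p) = f t p) ∧
      ∀ t (ht : t ∈ T₀), G t = g ⟨t, interior_subset (hs ht)⟩ := by
  obtain ⟨q, hq⟩ := hMUC n
  have hcc : ∀ t, Circ R (fun p => f t (Pj j p)) := fun t => (hc t).circ
  have hstd : ∀ t, ∀ x ∉ ((⟨Metric.closedBall 0 R, isCompact_closedBall _ _⟩ :
      Compacts (Phase (n + 1))) : Set (Phase (n + 1))), f t (Pj j x) = mu x := by
    intro t x hx
    apply (hcc t).std
    by_contra hne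
    exact hx (mem_closedBall_zero_iff.2 (not_lt.1 hne))
  obtain ⟨f', hf'⟩ : ∃ f' : T → CircHam n, ∀ t x, (f' t).1 x = f t (Pj j x) :=
    ⟨fun t => ⟨fun p => f t (Pj j p), (hcc t).smooth,
      ⟨Metric.closedBall 0 R, isCompact_closedBall _ _, hstd t⟩, (hcc t).per⟩, fun _ _ => rfl⟩
  have hcf : Continuous f' := (hTOP n).1 T (fun t x => f t (Pj j x))
    ⟨Metric.closedBall 0 R, isCompact_closedBall _ _⟩ f' (CF.comp hf (CF_Pj j)) hstd hf'
  obtain ⟨G, hG, hG0⟩ := hLFA n q hq T ⟨f', hcf⟩ N T₀ hN hT₀ hs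
    ⟨fun t => conj j (g t), (continuous_conj j).comp g.continuous⟩ (by
      intro t
      apply Subtype.ext
      funext p
      rw [hq]
      show mu (Pj j ((g t : Equiv.Perm (Phase (n + 1))) (Pj j p))) = (f' t).1 p
      rw [← muj_eq, hg, hf'])
  refine ⟨⟨fun t => conj j (G t), (continuous_conj j).comp G.continuous⟩, fun t p => ?_,
    fun t ht => ?_⟩
  · show muj j (Pj j ((G t : Equiv.Perm (Phase (n + 1))) (Pj j p))) = f t p
    have h1 := hG t
    have h2 : (q (G t)).1 (Pj j p) = (f' t).1 (Pj j p) := by rw [h1]; rfl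
    rw [hq, hf', Pj_Pj] at h2
    rw [muj_eq, Pj_Pj]
    exact h2
  · show conj j (G t) = _
    rw [hG0 t ht]
    exact conj_conj j _

end Pool.Agent.TOS
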