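import Pool.Agent.TOS.Defs
import Pool.Agent.TOS.Fib
import Pool.Agent.TOS.Comm
import Pool.Agent.TOS.Swap

/-!
# Toric systems: the fibres of `φ ↦ (|z_j ∘ φ| ^ 2 / 2)_{j ∈ S}`
-/

set_option autoImplicit false

open scoped ContDiff Topology
open Set Function TopologicalSpace

namespace Pool.Agent.TOS

open Pool.Agent.Helper17 Pool.Agent.Helper42 Pool.Agent.H50.Susp Pool.Agent.CRC

variable {n : ℕ}

lemma hamCircle_muj {i : Fin (n + 1)} (hi : i ≠ 0) : HamCircle (muj i) (rotj (n := n) i) where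
  smooth := contDiff_muj i
  zero := rotj_zero i
  norm := norm_rotj i
  z := (linCircle_rotj hi).z
  orb := hasDerivAt_rotj i
  uniq c hc s := orbit_muj i (fun s => by
    show HasDerivAt c (hamField (muj i) (c s)) s
    rw [hamField_eqV]
    exact hc s) s

/-- Brackets of functions composed with the exchange of two coordinates. -/
lemma bracket_Pj (k : Fin (n + 1)) {η f : Phase (n + 1) → ℝ} (hη : Differentiable ℝ η)
    (hf : Differentiable ℝ f) (p : Phase (n + 1)) :
    fderiv ℝ (fun q => η (Pj k q)) p (hamField (fun q => f (Pj k q)) p) =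
      fderiv ℝ η (Pj k p) (hamField f (Pj k p)) := by
  have h1 : HasFDerivAt (fun q => η (Pj k q)) ((fderiv ℝ η (Pj k p)).comp (Pj k)) p :=
    (hη _).hasFDerivAt.comp p (Pj k).hasFDerivAt
  rw [hamField_eqV, hamField_eqV, hamV_Pj hf, h1.fderiv, ContinuousLinearMap.comp_apply, Pj_Pj]

lemma muj_conj (k i : Fin (n + 1)) (φ : SympCt (n + 1)) (p : Phase (n + 1)) :
    muj (Equiv.swap 0 k i) ((conj k φ : Equiv.Perm (Phase (n + 1))) p) =
      momentj i φ (Pj k p) := by
  rw [conj_apply, muj_Pj, Equiv.swap_apply_self]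
  rfl

lemma mu_conj (k : Fin (n + 1)) (φ : SympCt (n + 1)) (p : Phase (n + 1)) :
    mu ((conj k φ : Equiv.Perm (Phase (n + 1))) p) = momentj k φ (Pj k p) := by
  rw [conj_apply, ← muj_eq]
  rfl

lemma zz_conj (k : Fin (n + 1)) (φ : SympCt (n + 1)) (p : Phase (n + 1)) :
    zz ((conj k φ : Equiv.Perm (Phase (n + 1))) p) =
      zzj k ((φ : Equiv.Perm (Phase (n + 1))) (Pj k p)) := by
  rw [conj_apply, ← zzj_eq]

lemma differentiable_momentj (j : Fin (n + 1)) (φ : SympCt (n + 1)) :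
    Differentiable ℝ (momentj j φ) :=
  ((contDiff_muj j).differentiable (by simp)).comp (SympCt.differentiable φ)

lemma swap_ne {k i : Fin (n + 1)} (h : i ≠ k) : Equiv.swap 0 k i ≠ 0 := by
  intro h1
  apply h
  have h2 := congrArg (Equiv.swap 0 k) h1
  rw [Equiv.swap_apply_self, Equiv.swap_apply_left] at h2
  exact h2

lemma isInvariantT_conj {S : Finset (Fin (n + 1))} {k : Fin (n + 1)} (hk : k ∈ S)
    (φ : SympCt (n + 1)) {η : Phase (n + 1) → ℝ} (h : IsInvariantT S φ η) :
    ContDiff ℝ ∞ (fun p => η (Pj k p)) ∧ HasCompactSupport (fun p => η (Pj k p)) ∧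
      (∀ p, fderiv ℝ (fun p => η (Pj k p)) p
        (hamField (fun q => mu ((conj k φ : Equiv.Perm (Phase (n + 1))) q)) p) = 0) ∧
      ∀ (i : {i // i ∈ S ∧ i ≠ k}) p, fderiv ℝ (fun p => η (Pj k p)) p
        (hamField (fun q => muj (Equiv.swap 0 k i.1)
          ((conj k φ : Equiv.Perm (Phase (n + 1))) q)) p) = 0 := by
  obtain ⟨hη, hc, hb⟩ := h
  have hd : Differentiable ℝ η := hη.differentiable (by simp)
  refine ⟨hη.comp (Pj k).contDiff, ?_, fun p => ?_, fun i p => ?_⟩
  · obtain ⟨R', -, h0⟩ := exists_radius_of_hasCompactSupport hc 0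
    exact hasCompactSupport_of_radius (R := R') fun p hp => h0 _ (by rw [norm_Pj]; exact hp)
  · have h1 : (fun q => mu ((conj k φ : Equiv.Perm (Phase (n + 1))) q)) =
        fun q => momentj k φ (Pj k q) := funext (mu_conj k φ)
    rw [h1, bracket_Pj k hd (differentiable_momentj k φ)]
    exact hb k hk _
  · have h1 : (fun q => muj (Equiv.swap 0 k i.1)
        ((conj k φ : Equiv.Perm (Phase (n + 1))) q)) =
        fun q => momentj i.1 φ (Pj k q) := funext (muj_conj k i.1 φ)
    rw [h1, bracket_Pj k hd (differentiable_momentj i.1 φ)]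
    exact hb i.1 i.2.1 _

/-- **FibJ (2)** -/
theorem fibJ (hFIB : St_FIB) (hEXP : St_EXP) (hBRK : St_BRK) (hUNI : St_UNI)
    {S : Finset (Fin (n + 1))} {k : Fin (n + 1)} (hk : k ∈ S) (φ ψ : SympCt (n + 1)) :
    (∀ j ∈ S, ∀ p, momentj j ψ p = momentj j φ p) ↔
      ∃ η, IsInvariantT S φ η ∧ IsTwistj k φ η ψ := by
  have hf := fib hFIB hEXP hBRK (ι := {i // i ∈ S ∧ i ≠ k})
    (ν := fun i => muj (Equiv.swap 0 k i.1)) (Λ := fun i => rotj (Equiv.swap 0 k i.1))
    (fun i => hamCircle_muj (swap_ne i.2.2))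
    (fun i => fun χ hχ => comm hUNI (linCircle_rotj (swap_ne i.2.2)) χ hχ)
    (conj k φ) (conj k ψ)
  constructor
  · intro h
    obtain ⟨η, hη, hc, hb, hbν, he⟩ := hf.1 ⟨fun p => by rw [mu_conj, mu_conj, h k hk],
      fun i p => by rw [muj_conj, muj_conj, h i.1 i.2.1]⟩
    have hd : Differentiable ℝ η := hη.differentiable (by simp)
    refine ⟨fun p => η (Pj k p), ⟨hη.comp (Pj k).contDiff, ?_, fun j hj p => ?_⟩, fun p => ?_⟩
    · obtain ⟨R', -, h0⟩ := exists_radius_of_hasCompactSupport hc 0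
      exact hasCompactSupport_of_radius (R := R') fun p hp => h0 _ (by rw [norm_Pj]; exact hp)
    · have h1 : momentj j φ = fun q => (fun q => momentj j φ (Pj k q)) (Pj k q) := by
        funext q
        simp only [Pj_Pj]
      have h2 : Differentiable ℝ (fun q => momentj j φ (Pj k q)) :=
        (differentiable_momentj j φ).comp (Pj k).differentiable
      rw [h1, bracket_Pj k hd h2]
      by_cases hjk : j = k
      · subst hjk
        have h3 : (fun q => momentj j φ (Pj j q)) =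
            fun q => mu ((conj j φ : Equiv.Perm (Phase (n + 1))) q) :=
          funext fun q => (mu_conj j φ q).symm
        rw [h3]
        exact hb _
      · have h3 : (fun q => momentj j φ (Pj k q)) =
            fun q => muj (Equiv.swap 0 k j) ((conj k φ : Equiv.Perm (Phase (n + 1))) q) :=
          funext fun q => (muj_conj k j φ q).symm
        rw [h3]
        exact hbν ⟨j, hj, hjk⟩ _
    · have h1 := he (Pj k p)
      rw [zz_conj, zz_conj, Pj_Pj] at h1
      exact h1
  · rintro ⟨η, hη, ht⟩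
    obtain ⟨h1, h2, h3, h4⟩ := isInvariantT_conj hk φ hη
    have h5 := hf.2 ⟨fun p => η (Pj k p), h1, h2, h3, h4, fun p => by
      rw [zz_conj, zz_conj]
      exact ht (Pj k p)⟩
    intro j hj p
    by_cases hjk : j = k
    · subst hjk
      have h6 := h5.1 (Pj j p)
      rw [mu_conj, mu_conj, Pj_Pj] at h6
      exact h6
    · have h6 := h5.2 ⟨j, hj, hjk⟩ (Pj k p)
      rw [muj_conj, muj_conj, Pj_Pj] at h6
      exact h6

/-- **FibJ (3)** -/
theorem fibJ_unique (hEXP : St_EXP) (hBRK : St_BRK) (hEXR : St_EXR) (hUNI : St_UNI)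
    {S : Finset (Fin (n + 1))} {k : Fin (n + 1)} (hk : k ∈ S)
    (φ : SympCt (n + 1)) {η : Phase (n + 1) → ℝ} (h : IsInvariantT S φ η) :
    ∃! ψ : SympCt (n + 1), IsTwistj k φ η ψ := by
  obtain ⟨h1, h2, h3, -⟩ := isInvariantT_conj hk φ h
  obtain ⟨ψ, hψ, hu⟩ := exists_unique_of_phase hEXP hBRK hEXR hUNI (conj k φ)
    (fun p => η (Pj k p)) h1 h2 h3
  refine ⟨conj k ψ, fun p => ?_, fun ψ' hψ' => ?_⟩
  · have h4 := hψ (Pj k p)
    rw [zz_conj, Pj_Pj] at h4
    rw [conj_apply, zzj_eq, Pj_Pj]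
    exact h4
  · have h4 : conj k ψ' = ψ := hu (conj k ψ') fun p => by
      rw [zz_conj, zz_conj]
      exact hψ' (Pj k p)
    rw [← h4, conj_conj]

end Pool.Agent.TOS
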