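import Pool.Agent.TOS.Defs
import Pool.Agent.CRC.St

/-!
# TOS Fin: from the lifting property to homotopy groups
-/

set_option autoImplicit false

open scoped ContDiff Topology
open Set Function TopologicalSpace

namespace Pool.Agent.TOS

open Pool.Agent.Helper17 Pool.Agent.Helper42 Pool.Agent.H50.Susp Pool.Agent.CRC

/-- **Fin**: the lifting property of the moment map gives the surjectivity and the isomorphisms on
homotopy groups. -/
theorem fin (hHGP : St_HGP) {n : ℕ} {S : Finset (Fin (n + 1))} (q : C(SympCt (n + 1), TorHam n S))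
    (hq : ∀ (φ : SympCt (n + 1)) (j : S) p, (q φ).1 j p = momentj j.1 φ p) (hL : LiftP q) :
    (∀ f : TorHam n S, ∃ φ : SympCt (n + 1), ∀ (j : S) p, f.1 j p = momentj j.1 φ p) ∧
    ∃ c : ∀ k : ℕ, PiG k (n + 1) → PiT k n S,
      (∀ k (φ : LoopG k (n + 1)) (f : LoopT k n S), IsMomentT φ f → c k φ.cls = f.cls) ∧
      (∀ k (φ : LoopG k (n + 1)), ∃ f : LoopT k n S, IsMomentT φ f) ∧
      (∀ k, Bijective (c k)) ∧ ∀ k, IsHom (c (k + 1)) := by
  have hq1 : q 1 = TorHam.std := by
    apply Subtype.ext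
    funext j p
    rw [hq]
    rfl
  obtain ⟨hsurj, hbij⟩ := (hHGP (SympCt (n + 1)) (TorHam n S) q 1 TorHam.std hq1).1 hL
  refine ⟨fun f => ?_, fun k => hgMap k q 1 TorHam.std hq1, ?_, ?_, hbij, ?_⟩
  · obtain ⟨φ, hφ⟩ := hsurj f
    refine ⟨φ, fun j p => ?_⟩
    rw [← hφ, hq]
  · intro k φ f hf
    change Quotient.mk _ _ = Quotient.mk _ _
    congr 1
    apply GenLoop.ext
    intro t
    change q (φ.1 t) = f.1 t
    apply Subtype.ext
    funext j p
    rw [hq]
    exact (hf t j p).symm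
  · intro k φ
    refine ⟨⟨q.comp φ.1, fun t ht => ?_⟩, fun t j p => ?_⟩
    · change q (φ.1 t) = TorHam.std
      rw [φ.2 t ht, hq1]
    · change (q (φ.1 t)).1 j p = _
      rw [hq]
      rfl
  · intro k a b
    exact (hHGP (SympCt (n + 1)) (TorHam n S) q 1 TorHam.std hq1).2 k a b

end Pool.Agent.TOS
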