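import Pool.Agent.TOS.Ind
import Pool.Agent.TOS.Swap
import Pool.Agent.TOS.Comm

/-!
# TOS: the lifting property of the moment map `φ ↦ (|z_j ∘ φ| ^ 2 / 2)_{j ∈ S}` (helper16)
-/

set_option autoImplicit false

open scoped ContDiff Topology
open Set Function TopologicalSpace

namespace Pool.Agent.TOS

open Pool.Agent.Helper17 Pool.Agent.Helper42 Pool.Agent.H50.Susp Pool.Agent.CRC Pool.Agent.TOR

variable {n : ℕ}

/-- families of torus actions are smooth with a common compact support -/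
def TopT (n : ℕ) (S : Finset (Fin (n + 1))) : Prop :=
  ∀ (T : Type) [TopologicalSpace T] [CompactSpace T] (f : T → TorHam n S), Continuous f →
    (∀ j : S, CF (fun t x => (f t).1 j x)) ∧
      ∃ K : Compacts (Phase (n + 1)), ∀ (t : T) (j : S), ∀ x ∉ K, (f t).1 j x = muj j.1 x

lemma muj_Pj_self (j : Fin (n + 1)) (p : Phase (n + 1)) : muj j (Pj j p) = mu p := by
  rw [muj_eq, Pj_Pj]

/-- functions which commute with `|z_i| ^ 2 / 2` are invariant under the rotation of `z_i` -/
theorem inv_of_pb (i : Fin (n + 1)) {h : Phase (n + 1) → ℝ} (hh : ContDiff ℝ ∞ h)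
    (hb : ∀ p, pb (muj i) h p = 0) (s : ℝ) (p : Phase (n + 1)) : h (rotj i s p) = h p := by
  have h1 : ∀ s, HasDerivAt (fun s => h (rotj i s p)) 0 s := by
    intro s
    have h2 := ((hh.differentiable (by simp) (rotj i s p)).hasFDerivAt).comp_hasDerivAt s
      (hasDerivAt_rotj i s p)
    have h3 := hb (rotj i s p)
    rw [pb] at h3
    rw [h3] at h2
    exact h2
  have h2 := is_const_of_deriv_eq_zero (fun s => (h1 s).differentiableAt)
    (fun s => (h1 s).deriv) s 0
  rw [h2, rotj_zero]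

/-- a symplectomorphism which commutes with the rotation of `z_i` preserves `|z_i| ^ 2 / 2` -/
theorem muj_of_comm (i : Fin (n + 1)) (φ : SympCt (n + 1))
    (h : ∀ s p, (φ : Equiv.Perm (Phase (n + 1))) (rotj i s p) =
      rotj i s ((φ : Equiv.Perm (Phase (n + 1))) p)) (p : Phase (n + 1)) :
    muj i ((φ : Equiv.Perm (Phase (n + 1))) p) = muj i p :=
  moment (rotj_zero i) φ h ((contDiff_muj i).differentiable (by simp)) (fun p => by
    have h1 := hasDerivAt_rotj i 0 p
    rw [rotj_zero] at h1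
    exact h1) p (Nat.succ_ne_zero n)

/-- the member `j` of a torus action as a circle action in the first coordinate -/
noncomputable def member {S : Finset (Fin (n + 1))} (f : TorHam n S) (j : S) : CircHam n :=
  ⟨fun p => f.1 j (Pj j.1 p), (f.2.1 j).1.comp (Pj j.1).contDiff, by
    obtain ⟨K, hK, h⟩ := (f.2.1 j).2.1
    refine ⟨Pj j.1 '' K, hK.image (Pj j.1).continuous, fun p hp => ?_⟩
    change f.1 j (Pj j.1 p) = mu p
    rw [h, muj_Pj_self]
    intro h1
    exact hp ⟨_, h1, Pj_Pj j.1 p⟩, fun c hc => by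
    have h1 := (f.2.1 j).2.2 _ (orbit_Pj ((f.2.1 j).1.differentiable (by simp)) j.1 hc)
    intro s
    have h2 := congrArg (Pj j.1) (h1 s)
    simp only [Pj_Pj] at h2
    exact h2⟩

/-- **The lifting property** of the moment map of a nonempty set `S` of coordinates. -/
theorem liftT (hTOP : St_TOP) (hLFA : St_LFA) (hEXR : St_EXR) (hUNI : St_UNI) (hBRK : St_BRK)
    (hFIB : St_FIB) (hEXP : St_EXP) (hMUC : St_MUC) {S : Finset (Fin (n + 1))}
    (hT : TopT n S) (hS : S.Nonempty)
    (Q : C(SympCt (n + 1), TorHam n S))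
    (hQ : ∀ φ (j : S) p, (Q φ).1 j p = muj j.1 ((φ : Equiv.Perm (Phase (n + 1))) p)) :
    LiftP Q := by
  classical
  intro T _ _ _ f N T₀ hN hT₀ hTN g hg
  obtain ⟨q, hq⟩ := hMUC n
  obtain ⟨hf, K, hK⟩ := hT T f f.continuous
  -- the members
  have hc : ∀ j : S, Continuous fun t => member (f t) j := by
    intro j
    refine (hTOP n).1 T (fun t p => (f t).1 j (Pj j.1 p)) (K.map (Pj j.1) (Pj j.1).continuous)
      _ ?_ ?_ fun t p => rfl
    · exact CF.comp (hf j) (CF_Pj j.1)
    · intro t p hp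
      rw [hK, muj_Pj_self]
      intro h1
      exact hp ⟨_, h1, Pj_Pj j.1 p⟩
  let F : Fin (n + 1) → C(T, CircHam n) := fun j =>
    if hj : j ∈ S then ⟨fun t => member (f t) ⟨j, hj⟩, hc ⟨j, hj⟩⟩ else ContinuousMap.const T CircHam.std
  have hF : ∀ (j : Fin (n + 1)) (hj : j ∈ S) t p, (F j t).1 (Pj j p) = (f t).1 ⟨j, hj⟩ p := by
    intro j hj t p
    have h1 : F j = ⟨fun t => member (f t) ⟨j, hj⟩, hc ⟨j, hj⟩⟩ := dif_pos hj
    rw [h1]
    change (f t).1 ⟨j, hj⟩ (Pj j (Pj j p)) = _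
    rw [Pj_Pj]
  obtain ⟨G, hG, hG0⟩ := ind hTOP hLFA hEXR hUNI hBRK hFIB hEXP
    (fun Λ hΛ φ h s p => comm hUNI hΛ φ h s p) q hq (fun j => Pj j) Pj_Pj conj conj_apply
    continuous_conj rotj (fun i j hij => by
      have h1 : (fun s => (Pj j).comp ((rotj i s).comp (Pj j))) = rotj (Equiv.swap 0 j i) := by
        funext s
        ext1 p
        exact Pj_rotj j i s p
      rw [h1]
      exact linCircle_rotj (swap_ne_zero hij)) rotj_comm (fun φ i h p => by
      rw [← muj_eq, ← muj_eq]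
      exact muj_of_comm i φ h p) (fun i h hh hb s p => by
      refine inv_of_pb i hh (fun p => ?_) s p
      have h1 : (muj i : Phase (n + 1) → ℝ) = fun x => mu (Pj i x) := funext (muj_eq i)
      rw [h1]
      exact hb p) S hS T F (fun i hi j hj t p => by
      have h1 : (fun x => (F i t).1 (Pj i x)) = (f t).1 ⟨i, hi⟩ := funext (hF i hi t)
      have h2 : (fun x => (F j t).1 (Pj j x)) = (f t).1 ⟨j, hj⟩ := funext (hF j hj t)
      rw [h1, h2, pb, ← hamField_eqV]
      exact (f t).2.2 ⟨j, hj⟩ ⟨i, hi⟩ p) N T₀ hN hT₀ hTN g (fun j hj t p => by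
      rw [← muj_eq, hF j hj, ← hg t, hQ])
  refine ⟨G, fun t => ?_, hG0⟩
  refine Subtype.ext (funext fun j => funext fun p => ?_)
  rw [hQ, muj_eq, hG j.1 j.2, hF j.1 j.2]

end Pool.Agent.TOS
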