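import Pool.Agent.TOS.Defs
import Pool.Agent.Helper17.DirectLimit
import Pool.Agent.Helper17.SympFamily

/-!
# TOS, module Top: continuous maps to `TorHam n S` and smooth families

Same proofs as in `Pool/Agent/CRC/TOP.lean`, for tuples.
-/

set_option autoImplicit false
set_option maxSynthPendingDepth 3

open scoped ContDiff Distributions Topology
open Set Function TopologicalSpace Filter Topology

namespace Pool.Agent.TOS

open Pool.Agent.Helper17 Pool.Agent.Helper42 Pool.Agent.CRC

namespace Top

variable {n : ℕ} {S : Finset (Fin (n + 1))}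

lemma topology_ind (K : Compacts (Phase (n + 1))) :
    (instTopologicalSpaceTSupp n S K : TopologicalSpace (TSupp n S K)) =
      ⨅ j : S, TopologicalSpace.induced (TSupp.disp K j) inferInstance := rfl

lemma continuous_disp (K : Compacts (Phase (n + 1))) (j : S) :
    Continuous (TSupp.disp K j : TSupp n S K → 𝓓_{K}(Phase (n + 1), ℝ)) :=
  continuous_iInf_dom (i := j) continuous_induced_dom

lemma continuous_rng {T : Type*} [TopologicalSpace T] {K : Compacts (Phase (n + 1))}
    {g : T → TSupp n S K} (h : ∀ j : S, Continuous (fun t => TSupp.disp K j (g t))) :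
    Continuous g := by
  rw [continuous_iInf_rng]
  intro j
  rw [continuous_induced_rng]
  exact h j

lemma continuous_incl (K : Compacts (Phase (n + 1))) :
    Continuous (TSupp.incl K : TSupp n S K → TorHam n S) :=
  continuous_iSup_rng (i := K) continuous_coinduced_rng

lemma incl_injective (K : Compacts (Phase (n + 1))) :
    Injective (TSupp.incl K : TSupp n S K → TorHam n S) := Subtype.val_injective

/-- The inclusion between the spaces attached to `K ≤ L`. -/
def mono {K L : Compacts (Phase (n + 1))} (h : K ≤ L) (φ : TSupp n S K) : TSupp n S L :=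
  ⟨φ.1, fun j p hp => φ.2 j p fun hK => hp (h hK)⟩

lemma topology_eq (K : Compacts (Phase (n + 1))) :
    (instTopologicalSpaceTSupp n S K : TopologicalSpace (TSupp n S K)) =
      ⨅ j : S, ⨅ i : ℕ, TopologicalSpace.induced
        (fun φ : TSupp n S K => ContDiffMapSupportedIn.structureMapLM ℝ ⊤ i (TSupp.disp K j φ))
        inferInstance := by
  rw [topology_ind]
  refine iInf_congr fun j => ?_
  change TopologicalSpace.induced (TSupp.disp K j) (⨅ i : ℕ, TopologicalSpace.induced
    (ContDiffMapSupportedIn.structureMapLM ℝ ⊤ i) inferInstance) = _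
  rw [induced_iInf]
  refine iInf_congr fun i => ?_
  rw [induced_compose]
  rfl

lemma isInducing_mono {K L : Compacts (Phase (n + 1))} (h : K ≤ L) :
    IsInducing (mono h : TSupp n S K → TSupp n S L) := by
  constructor
  rw [topology_eq K, topology_eq L, induced_iInf]
  refine iInf_congr fun j => ?_
  rw [induced_iInf]
  refine iInf_congr fun i => ?_
  rw [induced_compose]
  congr 1

lemma continuous_eval (K : Compacts (Phase (n + 1))) (j : S) (p : Phase (n + 1)) :
    Continuous (fun φ : TSupp n S K => φ.1.1 j p) := by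
  have h1 : Continuous (fun φ : TSupp n S K => TSupp.disp K j φ p) :=
    (continuous_eval_const p).comp (continuous_disp K j)
  have h2 : (fun φ : TSupp n S K => φ.1.1 j p) =
      fun φ : TSupp n S K => TSupp.disp K j φ p + muj j.1 p := by
    ext1 φ
    change _ = (φ.1.1 j p - muj j.1 p) + muj j.1 p
    abel
  rw [h2]
  exact h1.add continuous_const

lemma ext_TSupp {K : Compacts (Phase (n + 1))} {φ ψ : TSupp n S K}
    (h : ∀ j p, φ.1.1 j p = ψ.1.1 j p) : φ = ψ :=
  Subtype.ext (Subtype.ext (funext fun j => funext fun p => h j p))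

instance (K : Compacts (Phase (n + 1))) : T2Space (TSupp n S K) := by
  rw [t2Space_iff]
  intro φ ψ hne
  have : ∃ j p, φ.1.1 j p ≠ ψ.1.1 j p := by
    by_contra h
    push Not at h
    exact hne (ext_TSupp h)
  obtain ⟨j, p, hp⟩ := this
  obtain ⟨U, V, hU, hV, h1, h2, h3⟩ := t2_separation hp
  exact ⟨_, _, hU.preimage (continuous_eval K j p),
    hV.preimage (continuous_eval K j p), h1, h2, h3.preimage _⟩

lemma isClosedEmbedding_mono {K L : Compacts (Phase (n + 1))} (h : K ≤ L) :
    IsClosedEmbedding (mono h : TSupp n S K → TSupp n S L) where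
  toIsInducing := isInducing_mono h
  injective := fun φ ψ hφψ => Subtype.ext (by
    have : (mono h φ).1 = (mono h ψ).1 := by rw [hφψ]
    exact this)
  isClosed_range := by
    have : range (mono h : TSupp n S K → TSupp n S L) =
        ⋂ j : S, ⋂ p : {p : Phase (n + 1) // p ∉ K},
          {φ : TSupp n S L | φ.1.1 j p.1 = muj j.1 p.1} := by
      ext φ
      simp only [mem_range, mem_iInter, Subtype.forall]
      constructor
      · rintro ⟨ψ, rfl⟩ j hj p hp
        exact ψ.2 ⟨j, hj⟩ p hp
      · intro hφ
        exact ⟨⟨φ.1, fun j p hp => hφ j.1 j.2 p hp⟩, rfl⟩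
    rw [this]
    exact isClosed_iInter fun j => isClosed_iInter fun p =>
      isClosed_eq (continuous_eval L j p.1) continuous_const

lemma isClosed_iff_forall (s : Set (TorHam n S)) :
    IsClosed s ↔ ∀ K : Compacts (Phase (n + 1)), IsClosed (TSupp.incl K ⁻¹' s) := by
  rw [isClosed_iSup_iff]
  simp only [isClosed_coinduced]

lemma isClosedEmbedding_incl (K : Compacts (Phase (n + 1))) :
    IsClosedEmbedding (TSupp.incl K : TSupp n S K → TorHam n S) := by
  refine IsClosedEmbedding.of_continuous_injective_isClosedMap (continuous_incl K)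
    (incl_injective K) ?_
  intro s hs
  rw [isClosed_iff_forall]
  intro L
  have h1 : TSupp.incl L ⁻¹' (TSupp.incl K '' s) =
      mono (le_sup_right : L ≤ K ⊔ L) ⁻¹' (mono (le_sup_left : K ≤ K ⊔ L) '' s) := by
    ext φ
    constructor
    · rintro ⟨ψ, hψ, h⟩
      exact ⟨ψ, hψ, Subtype.ext h⟩
    · rintro ⟨ψ, hψ, h⟩
      exact ⟨ψ, hψ, congrArg Subtype.val h⟩
  rw [h1]
  exact ((isClosedEmbedding_mono _).isClosedMap s hs).preimage
    (isInducing_mono _).continuous

lemma exists_supported_ballC (φ : TorHam n S) :
    ∃ N, ∀ M, N ≤ M → ∀ j, ∀ p ∉ ballC (n + 1) M, φ.1 j p = muj j.1 p := by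
  choose K hK hφK using fun j : S => (φ.2.1 j).2.1
  choose N hN using fun j : S => exists_ballC_ge (⟨K j, hK j⟩ : Compacts (Phase (n + 1)))
  refine ⟨Finset.univ.sup N, fun M hM j p hp => hφK j p fun h => hp ?_⟩
  exact ballC_mono ((Finset.le_sup (Finset.mem_univ j)).trans hM) (hN j h)

/-- A compact set of tuples consists of tuples which are standard outside a common ball. -/
lemma exists_ballC_of_isCompact {C : Set (TorHam n S)} (hC : IsCompact C) :
    ∃ N, ∀ φ ∈ C, ∀ j, ∀ p ∉ ballC (n + 1) N, φ.1 j p = muj j.1 p := by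
  by_contra hcon
  push Not at hcon
  choose φ hφC hφ using hcon
  obtain ⟨c, hcC, hc⟩ := hC.exists_mapClusterPt (f := atTop) (u := φ) (by
    rw [le_principal_iff]
    exact Filter.mem_map.2 (Filter.Eventually.of_forall hφC))
  obtain ⟨M, hM⟩ := exists_supported_ballC c
  set S' : Set (TorHam n S) := range φ \ {c} with hS
  have hclosed : IsClosed S' := by
    rw [isClosed_iff_forall]
    intro K
    obtain ⟨L, hL⟩ := exists_ballC_ge K
    have hfin : (TSupp.incl K ⁻¹' S').Finite := by
      have : (TSupp.incl K ⁻¹' S') ⊆ TSupp.incl K ⁻¹' (φ '' {N | N < L}) := by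
        rintro ψ ⟨⟨N, hN⟩, -⟩
        refine ⟨N, ?_, hN⟩
        by_contra hNL
        obtain ⟨j, p, hp, hne⟩ := hφ N
        have h1 : L ≤ N := not_lt.1 hNL
        apply hne
        rw [hN]
        exact ψ.2 j p fun h => hp (ballC_mono h1 (hL h))
      refine Finite.subset ?_ this
      exact ((finite_lt_nat L).image φ).preimage (incl_injective K).injOn
    exact hfin.isClosed
  have hnhds : S'ᶜ ∈ 𝓝 c := hclosed.isOpen_compl.mem_nhds (by simp [hS])
  have hfreq := (mapClusterPt_iff_frequently.1 hc) S'ᶜ hnhds
  obtain ⟨N, hN, hNS⟩ := (Filter.frequently_atTop.1 hfreq) M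
  have hNc : φ N = c := by
    by_contra h
    exact hNS ⟨⟨N, rfl⟩, h⟩
  obtain ⟨j, p, hp, hne⟩ := hφ N
  rw [hNc] at hne
  exact hne (hM N hN j p hp)

/-- A continuous map from a compact space factors through a stage. -/
lemma exists_lift_of_compact {T : Type*} [TopologicalSpace T] [CompactSpace T]
    (f : T → TorHam n S) (hf : Continuous f) :
    ∃ N, ∃ g : T → TSupp n S (ballC (n + 1) N), Continuous g ∧ ∀ t, (g t).1 = f t := by
  obtain ⟨N, hN⟩ := exists_ballC_of_isCompact (isCompact_range hf)
  have hN' : ∀ t, ∀ j, ∀ p ∉ ballC (n + 1) N, (f t).1 j p = muj j.1 p :=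
    fun t => hN (f t) (mem_range_self t)
  refine ⟨N, fun t => ⟨f t, hN' t⟩, ?_, fun t => rfl⟩
  exact (isClosedEmbedding_incl (ballC (n + 1) N)).isInducing.continuous_iff.2 hf

end Top

variable {n : ℕ} {S : Finset (Fin (n + 1))}

/-- **Top (1)**: smooth families which are standard outside a common compact set are continuous. -/
theorem continuous_of_CF_T {T : Type} [TopologicalSpace T] {F : T → S → Phase (n + 1) → ℝ}
    (hF : ∀ j, CF (fun t => F t j)) (K : Compacts (Phase (n + 1)))
    (hK : ∀ t j, ∀ x ∉ K, F t j x = muj j.1 x)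
    {g : T → TorHam n S} (hg : ∀ t j x, (g t).1 j x = F t j x) : Continuous g := by
  set gK : T → TSupp n S K := fun t => ⟨g t, fun j p hp => by rw [hg, hK t j p hp]⟩ with hgK
  have hcont : Continuous gK := by
    apply Top.continuous_rng
    intro j
    rw [ContDiffMapSupportedIn.continuous_iff_comp]
    intro i
    apply continuous_bcf_of_joint _ K.isCompact
    · intro t x hx
      simp only [comp_apply]
      rw [ContDiffMapSupportedIn.structureMapCLM_top_apply]
      exact ContDiffMapSupportedIn.iteratedFDeriv_zero_on_compl _ hx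
    · have h1 : ∀ q : T × Phase (n + 1),
          ((ContDiffMapSupportedIn.structureMapCLM ℝ ⊤ i ∘ fun t => TSupp.disp K j (gK t)) q.1) q.2 =
          iteratedFDeriv ℝ i (fun x => F q.1 j x - muj j.1 x) q.2 := by
        intro q
        simp only [comp_apply]
        rw [ContDiffMapSupportedIn.structureMapCLM_top_apply]
        have : (TSupp.disp K j (gK q.1) : Phase (n + 1) → ℝ) =
            fun x => F q.1 j x - muj j.1 x := by
          funext x
          change (g q.1).1 j x - muj j.1 x = _
          rw [hg]
        rw [this]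
      simp_rw [h1]
      exact ((hF j).sub (CF.const (contDiff_muj j.1))).continuous_iteratedFDeriv i
  exact (Top.continuous_incl K).comp hcont

/-- **Top (2)**: a continuous map from a compact space is a smooth family, standard outside a common
compact set. -/
theorem CF_of_continuous_T {T : Type} [TopologicalSpace T] [CompactSpace T] {f : T → TorHam n S}
    (hf : Continuous f) : (∀ j, CF (fun t x => (f t).1 j x)) ∧
      ∃ K : Compacts (Phase (n + 1)), ∀ t j, ∀ x ∉ K, (f t).1 j x = muj j.1 x := by
  obtain ⟨N, g, hg, hgf⟩ := Top.exists_lift_of_compact f hf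
  refine ⟨fun j => ?_, ballC (n + 1) N, fun t j x hx => by rw [← hgf t]; exact (g t).2 j x hx⟩
  have h1 : CF (fun t x => (f t).1 j x - muj j.1 x) := by
    intro k
    apply CFk.of_iteratedFDeriv
    · intro t
      exact ((f t).2.1 j).1.sub (contDiff_muj j.1)
    · intro i
      have h2 : Continuous (fun t => ContDiffMapSupportedIn.structureMapCLM ℝ ⊤ i
          (TSupp.disp (ballC (n + 1) N) j (g t))) :=
        (ContDiffMapSupportedIn.structureMapCLM ℝ ⊤ i).continuous.comp
          ((Top.continuous_disp (ballC (n + 1) N) j).comp hg)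
      have h3 : ∀ q : T × Phase (n + 1), iteratedFDeriv ℝ i
          (fun x => (f q.1).1 j x - muj j.1 x) q.2 =
          (ContDiffMapSupportedIn.structureMapCLM ℝ ⊤ i
          (TSupp.disp (ballC (n + 1) N) j (g q.1))) q.2 := by
        intro q
        rw [ContDiffMapSupportedIn.structureMapCLM_top_apply]
        have : (TSupp.disp (ballC (n + 1) N) j (g q.1) : Phase (n + 1) → ℝ) =
            fun x => (f q.1).1 j x - muj j.1 x := by
          funext x
          change ((g q.1).1).1 j x - muj j.1 x = _
          rw [hgf]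
        rw [this]
      simp_rw [h3]
      exact Continuous.eval (h2.comp continuous_fst) continuous_snd
  have h2 := h1.add (CF.const (T := T) (contDiff_muj (n := n) j.1))
  have h3 : (fun (t : T) (x : Phase (n + 1)) => (f t).1 j x) =
      fun t x => (f t).1 j x - muj j.1 x + muj j.1 x := by
    funext t x
    exact (sub_add_cancel _ _).symm
  rw [h3]
  exact h2

end Pool.Agent.TOS
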