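import Pool.Agent.TOS.Swap
import Pool.Agent.TOS.Comm
import Pool.Agent.TOS.Top

/-!
# TOS, module Muc: the continuous map `φ ↦ (|z_j ∘ φ| ^ 2 / 2)_j`
-/

set_option autoImplicit false
set_option maxSynthPendingDepth 3

open scoped ContDiff Distributions Topology
open Set Function TopologicalSpace

namespace Pool.Agent.TOS

open Pool.Agent.Helper17 Pool.Agent.Helper42 Pool.Agent.H50.Susp Pool.Agent.CRC Pool.Agent.TOR

variable {n : ℕ}

/-- the Hamiltonian orbits of `|z_j ∘ φ| ^ 2 / 2` are periodic -/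
lemma periodic_momentj (hMUC : St_MUC) (j : Fin (n + 1)) (φ : SympCt (n + 1))
    (c : ℝ → Phase (n + 1))
    (hc : IsHamOrbit (fun p => muj j ((φ : Equiv.Perm (Phase (n + 1))) p)) c) :
    Function.Periodic c (2 * Real.pi) := by
  obtain ⟨q, hq⟩ := hMUC n
  have h0 : (fun p => muj j ((φ : Equiv.Perm (Phase (n + 1))) p)) =
      fun p => (q (conj j φ)).1 (Pj j p) := by
    funext p
    rw [hq, conj_apply, Pj_Pj, muj_eq]
  rw [h0] at hc
  have h1 := (q (conj j φ)).2.2.2 _
    (orbit_Pj ((q (conj j φ)).2.1.differentiable (by simp)) j hc)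
  intro s
  have h2 := h1 s
  simp only at h2
  rw [← Pj_Pj j (c (s + 2 * Real.pi)), h2, Pj_Pj]

/-- the brackets of the `|z_j ∘ φ| ^ 2 / 2` are zero -/
lemma bracket_momentj (i j : Fin (n + 1)) (φ : SympCt (n + 1)) (p : Phase (n + 1)) :
    fderiv ℝ (fun p => muj i ((φ : Equiv.Perm (Phase (n + 1))) p)) p
      (hamField (fun p => muj j ((φ : Equiv.Perm (Phase (n + 1))) p)) p) = 0 := by
  have hd : ∀ k : Fin (n + 1), Differentiable ℝ (muj k : Phase (n + 1) → ℝ) := fun k =>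
    (contDiff_muj k).differentiable (by simp)
  have h1 : HasFDerivAt (fun p => muj i ((φ : Equiv.Perm (Phase (n + 1))) p))
      ((fderiv ℝ (muj i) ((φ : Equiv.Perm (Phase (n + 1))) p)).comp
        (fderiv ℝ (φ : Equiv.Perm (Phase (n + 1))) p)) p :=
    (hd i _).hasFDerivAt.comp p (SympCt.differentiable φ p).hasFDerivAt
  rw [h1.fderiv, ContinuousLinearMap.comp_apply, hamField_eqV, hamV_comp_symp (hd j) φ p,
    ← hamField_eqV, fderiv_muj_hamField]

/-- **Muc**: the continuous map `φ ↦ (|z_j ∘ φ| ^ 2 / 2)_j` -/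
theorem exists_qT (hMUC : St_MUC) (n : ℕ) (S : Finset (Fin (n + 1))) :
    ∃ q : C(SympCt (n + 1), TorHam n S), ∀ φ (j : S) p,
      (q φ).1 j p = muj j.1 ((φ : Equiv.Perm (Phase (n + 1))) p) := by
  refine ⟨⟨fun φ => ⟨fun j p => muj j.1 ((φ : Equiv.Perm (Phase (n + 1))) p), fun j => ⟨?_, ?_, ?_⟩,
    fun i j p => bracket_momentj i.1 j.1 φ p⟩, ?_⟩, fun φ j p => rfl⟩
  · exact (contDiff_muj j.1).comp (SympCt.contDiff φ)
  · obtain ⟨-, -, -, L, hL, h'⟩ := φ.2
    exact ⟨L, hL, fun p hp => by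
      beta_reduce
      rw [h' p hp]⟩
  · exact periodic_momentj hMUC j.1 φ
  · rw [continuous_iSup_dom]
    intro K
    rw [continuous_coinduced_dom]
    refine continuous_of_CF_T (T := SympSupp (n + 1) K)
      (F := fun t j x => muj j.1 ((t.1 : Equiv.Perm (Phase (n + 1))) x)) ?_ K ?_
      (fun t j x => rfl)
    · intro j
      exact CF.comp_smooth (g := muj j.1) (fun _ _ => (contDiff_muj j.1).contDiffAt) (CF_supp K)
    · intro t j x hx
      rw [t.2 x hx]

end Pool.Agent.TOS
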