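import Pool.Agent.TOS.Base
import Pool.Agent.TOS.Fin
import Pool.Agent.TOS.FibJ
import Pool.Agent.TOS.IndJ
import Pool.Agent.TOS.Top
import Pool.Agent.TOS.Muc

/-!
# TOS Main: the theorem on Hamiltonian torus actions which are standard at infinity
-/

set_option autoImplicit false

open scoped ContDiff Topology
open Set Function TopologicalSpace

namespace Pool.Agent.TOS

open Pool.Agent.Helper17 Pool.Agent.Helper42 Pool.Agent.H50.Susp Pool.Agent.CRC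

/-- Hamiltonian torus actions on `ℝ^{2n+2}` which are standard at infinity. -/
theorem main (n : ℕ) (S : Finset (Fin (n + 1))) (hS : S.Nonempty) :
    (∀ f : TorHam n S, ∃ φ : SympCt (n + 1), ∀ (j : S) p, f.1 j p = momentj j.1 φ p) ∧
    (∀ j ∈ S, ∀ φ ψ : SympCt (n + 1), (∀ i ∈ S, ∀ p, momentj i ψ p = momentj i φ p) ↔
      ∃ η : Phase (n + 1) → ℝ, IsInvariantT S φ η ∧ IsTwistj j φ η ψ) ∧
    (∀ j ∈ S, ∀ (φ : SympCt (n + 1)) (η : Phase (n + 1) → ℝ), IsInvariantT S φ η →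
      ∃! ψ : SympCt (n + 1), IsTwistj j φ η ψ) ∧
    ∃ c : ∀ k : ℕ, PiG k (n + 1) → PiT k n S,
      (∀ k (φ : LoopG k (n + 1)) (f : LoopT k n S), IsMomentT φ f → c k φ.cls = f.cls) ∧
      (∀ k (φ : LoopG k (n + 1)), ∃ f : LoopT k n S, IsMomentT φ f) ∧
      (∀ k, Function.Bijective (c k)) ∧ ∀ k, IsHom (c (k + 1)) := by
  obtain ⟨-, hTOP, hMUC, hLFA, hHGP, hFIB, hEXP, hBRK, hEXR, hUNI⟩ := base
  obtain ⟨q, hq⟩ := exists_qT hMUC n S
  have hL : LiftP q := liftT hTOP hLFA hEXR hUNI hBRK hFIB hEXP hMUC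
    (fun _ _ _ _ hf => CF_of_continuous_T hf) hS q hq
  obtain ⟨h1, h4⟩ := fin hHGP q hq hL
  exact ⟨h1, fun j hj φ ψ => fibJ hFIB hEXP hBRK hUNI hj φ ψ,
    fun j hj φ η h => fibJ_unique hEXP hBRK hEXR hUNI hj φ h, h4⟩

end Pool.Agent.TOS
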