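import Pool.Agent.CRC.Asm

/-!
# TOS: the statements of the circle library which are used
-/

set_option autoImplicit false

namespace Pool.Agent.TOS

open Pool.Agent.CRC

/-- The statements of the circle library which are used for torus actions. -/
theorem base : St_MOM ∧ St_TOP ∧ St_MUC ∧ St_LFA ∧ St_HGP ∧ St_FIB ∧ St_EXP ∧ St_BRK ∧ St_EXR ∧
    St_UNI := by
  have hACT := thm_ACT
  have hBRK := thm_BRK
  have hFLW := thm_FLW
  have hCLF := thm_CLF
  have hDIV := thm_DIV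
  have hLOG := thm_LOG
  have hMOM := thm_MOM
  have hTOP := thm_TOP
  have hUNI := thm_UNI
  have hEXP := thm_EXP
  have hEXR := thm_EXR thm_EXA
  have hMUC := thm_MUC hMOM hTOP
  have hUFN := thm_UFN (thm_VEC hACT)
  have hLIN := thm_LIN hACT
  have hLCH := thm_LCH hACT hUFN hLIN (thm_NTR hACT hLIN) (thm_LAL hCLF)
  have hSLC := thm_SLC hACT hLCH
  have hLSO := thm_LSO hACT hDIV hSLC
  have hGLU := thm_GLU hACT (thm_PAT hLSO hCLF) (thm_RAT hLSO hDIV hCLF) thm_PTU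
  have hONT := thm_ONT hFLW hACT hUFN hSLC hGLU hBRK hEXR
  have hLO2 := thm_LO2 (thm_LOC hFLW thm_AVG hACT hDIV hBRK)
  have hFIB := thm_FIB hEXR hBRK hMOM hDIV hLOG hFLW
  have hLFA := thm_LFA hTOP hLO2 (thm_LIF hFIB hEXP) hEXR hUNI hBRK hONT
  exact ⟨hMOM, hTOP, hMUC, hLFA, thm_HGP, hFIB, hEXP, hBRK, hEXR, hUNI⟩

end Pool.Agent.TOS
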