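import Pool.Agent.TOR.Step
import Pool.Agent.CRC.LO2
import Pool.Agent.Helper42.Susp.GroupOps

/-!
# TOS: the lifting property of toric systems, by induction on the number of functions (helper16)

Written for abstract exchanges `P j` of coordinates, rotations `rt i` and conjugations `cj j`.
-/

set_option autoImplicit false

open scoped ContDiff Topology
open Set Function TopologicalSpace

namespace Pool.Agent.TOS

open Pool.Agent.Helper17 Pool.Agent.Helper42 Pool.Agent.H50.Susp Pool.Agent.CRC Pool.Agent.TOR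

/-- families of circle Hamiltonians transported by families of symplectomorphisms -/
theorem exists_act (hTOP : St_TOP) {n : ℕ} {T : Type} [TopologicalSpace T] [CompactSpace T]
    (f : C(T, CircHam n)) (F : C(T, SympCt (n + 1))) :
    ∃ h : C(T, CircHam n), ∀ t p, (h t).1 p =
      (f t).1 ((((F t)⁻¹ : SympCt (n + 1)) : Equiv.Perm (Phase (n + 1))) p) := by
  obtain ⟨hf, K, hK⟩ := (hTOP n).2 T f f.continuous
  obtain ⟨hF, K', hK'⟩ := CF_of_continuous (continuous_inv_family F.continuous)
  have hoff : ∀ t, ∀ p ∉ K ⊔ K', (f t).1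
      ((((F t)⁻¹ : SympCt (n + 1)) : Equiv.Perm (Phase (n + 1))) p) = mu p := by
    intro t p hp
    have h1 : p ∉ K ∧ p ∉ K' := by
      constructor <;> intro h <;> apply hp
      · exact Or.inl h
      · exact Or.inr h
    rw [hK' t p h1.2, hK t p h1.1]
  let h : T → CircHam n := fun t =>
    ⟨fun p => (f t).1 ((((F t)⁻¹ : SympCt (n + 1)) : Equiv.Perm (Phase (n + 1))) p),
      (f t).2.1.comp (SympCt.contDiff (F t)⁻¹), ⟨_, (K ⊔ K').isCompact, hoff t⟩, fun c hc => by
        have h1 : ∀ s, HasDerivAt c (hamV (fun q => (f t).1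
            ((((F t)⁻¹ : SympCt (n + 1)) : Equiv.Perm (Phase (n + 1))) q)) (c s)) s := by
          intro s
          rw [← hamField_eqV]
          exact hc s
        have h2 := symp_orbit (F t)⁻¹ ((f t).2.1.differentiable (by simp)) h1
        have h3 := (f t).2.2.2
          (fun s => (((F t)⁻¹ : SympCt (n + 1)) : Equiv.Perm (Phase (n + 1))) (c s)) (fun s => by
          rw [hamField_eqV]
          exact h2 s)
        intro s
        exact (((F t)⁻¹ : SympCt (n + 1)) : Equiv.Perm (Phase (n + 1))).injective (h3 s)⟩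
  refine ⟨⟨h, (hTOP n).1 T (fun t p => (f t).1
    ((((F t)⁻¹ : SympCt (n + 1)) : Equiv.Perm (Phase (n + 1))) p)) (K ⊔ K') h ?_ hoff
    fun t p => rfl⟩, fun t p => rfl⟩
  exact CF.comp hf hF

/-- **IND**: the lifting property of the toric systems. -/
theorem ind (hTOP : St_TOP) (hLFA : St_LFA) (hEXR : St_EXR) (hUNI : St_UNI) (hBRK : St_BRK)
    (hFIB : St_FIB) (hEXP : St_EXP) {n : ℕ}
    (hCOMM : ∀ (Λ : ℝ → Phase (n + 1) →L[ℝ] Phase (n + 1)), LinCircle Λ →
      ∀ φ : SympCt (n + 1),
        (∀ s p, zz ((φ : Equiv.Perm (Phase (n + 1))) (Λ s p)) =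
          zz ((φ : Equiv.Perm (Phase (n + 1))) p)) →
        ∀ s p, (φ : Equiv.Perm (Phase (n + 1))) (Λ s p) =
          Λ s ((φ : Equiv.Perm (Phase (n + 1))) p))
    (q : C(SympCt (n + 1), CircHam n))
    (hq : ∀ φ p, (q φ).1 p = mu ((φ : Equiv.Perm (Phase (n + 1))) p))
    -- exchanges of coordinates
    (P : Fin (n + 1) → Phase (n + 1) →L[ℝ] Phase (n + 1)) (hP : ∀ j p, P j (P j p) = p)
    -- conjugations with them
    (cj : Fin (n + 1) → SympCt (n + 1) → SympCt (n + 1))
    (hcj : ∀ j φ p, ((cj j φ : SympCt (n + 1)) : Equiv.Perm (Phase (n + 1))) p =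
      P j ((φ : Equiv.Perm (Phase (n + 1))) (P j p)))
    (hcjc : ∀ j, Continuous (cj j))
    -- rotations
    (rt : Fin (n + 1) → ℝ → Phase (n + 1) →L[ℝ] Phase (n + 1))
    (hLin : ∀ i j : Fin (n + 1), i ≠ j → LinCircle fun s => (P j).comp ((rt i s).comp (P j)))
    (hrt : ∀ i k s r p, rt i s (rt k r p) = rt k r (rt i s p))
    (hMU : ∀ (φ : SympCt (n + 1)) (i : Fin (n + 1)),
      (∀ s p, (φ : Equiv.Perm (Phase (n + 1))) (rt i s p) =
        rt i s ((φ : Equiv.Perm (Phase (n + 1))) p)) →
      ∀ p, mu (P i ((φ : Equiv.Perm (Phase (n + 1))) p)) = mu (P i p))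
    (hINV : ∀ (i : Fin (n + 1)) (h : Phase (n + 1) → ℝ), ContDiff ℝ ∞ h →
      (∀ p, pb (fun x => mu (P i x)) h p = 0) → ∀ s p, h (rt i s p) = h p)
    -- the statement
    (S : Finset (Fin (n + 1))) (hS : S.Nonempty)
    (T : Type) [TopologicalSpace T] [CompactSpace T] [T2Space T]
    (f : Fin (n + 1) → C(T, CircHam n))
    (hf : ∀ i ∈ S, ∀ j ∈ S, ∀ t p,
      pb (fun x => (f i t).1 (P i x)) (fun x => (f j t).1 (P j x)) p = 0)
    (N T₀ : Set T) (hN : IsClosed N) (hT₀ : IsClosed T₀) (hTN : T₀ ⊆ interior N)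
    (g : C(N, SympCt (n + 1)))
    (hg : ∀ j ∈ S, ∀ (t : N) p, mu (P j ((g t : Equiv.Perm (Phase (n + 1))) p)) =
      (f j t).1 (P j p)) :
    ∃ F : C(T, SympCt (n + 1)),
      (∀ j ∈ S, ∀ t p, mu (P j ((F t : Equiv.Perm (Phase (n + 1))) p)) = (f j t).1 (P j p)) ∧
      ∀ t (ht : t ∈ T₀), F t = g ⟨t, interior_subset (hTN ht)⟩ := by
  classical
  have hcj2 : ∀ j φ, cj j (cj j φ) = φ := by
    intro j φ
    refine SympCt.ext' fun x => ?_
    rw [hcj, hcj, hP, hP]
  induction hS using Finset.Nonempty.cons_induction generalizing N T₀ with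
  | singleton j =>
    obtain ⟨G, hG, hG0⟩ := hLFA n q hq T (f j) N T₀ hN hT₀ hTN
      ⟨fun t => cj j (g t), (hcjc j).comp g.continuous⟩ (by
        intro t
        refine Subtype.ext (funext fun p => ?_)
        change (q (cj j (g t))).1 p = (f j t).1 p
        have h1 := hg j (Finset.mem_singleton_self j) t (P j p)
        rw [hP] at h1
        rw [hq, hcj, h1])
    refine ⟨⟨fun t => cj j (G t), (hcjc j).comp G.continuous⟩, ?_, fun t ht => ?_⟩
    · intro j' hj' t p
      obtain rfl := Finset.mem_singleton.1 hj'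
      change mu (P j' ((cj j' (G t) : Equiv.Perm (Phase (n + 1))) p)) = _
      rw [hcj, hP, ← hq, hG]
    · change cj j (G t) = _
      rw [hG0 t ht]
      exact hcj2 j _
  | cons j S hj hS ih =>
    have hmem : ∀ i ∈ S, i ∈ Finset.cons j S hj := fun i hi => Finset.mem_cons.2 (Or.inr hi)
    have hjm : j ∈ Finset.cons j S hj := Finset.mem_cons_self j S
    -- a closed neighbourhood of `T₀` inside `N`
    obtain ⟨O, hO, hTO, hON⟩ := normal_exists_closure_subset hT₀ isOpen_interior hTN
    obtain ⟨F₁, hF₁, hF₁g⟩ := ih (fun i hi k hk => hf i (hmem i hi) k (hmem k hk)) N (closure O)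
      hN isClosed_closure hON g (fun i hi => hg i (hmem i hi))
    -- the new function in the new coordinates
    obtain ⟨h, hh⟩ := exists_act hTOP (f j)
      ⟨fun t => cj j (F₁ t), (hcjc j).comp F₁.continuous⟩
    have hcinv : ∀ (φ : SympCt (n + 1)) (p : Phase (n + 1)),
        (((cj j φ)⁻¹ : SympCt (n + 1)) : Equiv.Perm (Phase (n + 1))) (P j
          ((φ : Equiv.Perm (Phase (n + 1))) p)) = P j p := by
      intro φ p
      have h1 := hcj j φ (P j p)
      rw [hP] at h1
      rw [← h1]
      exact SympCt.inv_apply_self _ _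
    -- `f j = h ∘ P j ∘ F₁`
    have hfh : ∀ t p, (f j t).1 (P j p) =
        (h t).1 (P j ((F₁ t : Equiv.Perm (Phase (n + 1))) p)) := by
      intro t p
      rw [hh]
      change _ = (f j t).1 ((((cj j (F₁ t))⁻¹ : SympCt (n + 1)) : Equiv.Perm (Phase (n + 1)))
        (P j ((F₁ t : Equiv.Perm (Phase (n + 1))) p)))
      rw [hcinv]
    have hmuP : ∀ i, Differentiable ℝ fun x : Phase (n + 1) => mu (P i x) := fun i =>
      (contDiff_mu.comp (P i).contDiff).differentiable (by simp)
    have hhP : ∀ t, ContDiff ℝ ∞ fun x : Phase (n + 1) => (h t).1 (P j x) := fun t =>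
      (h t).2.1.comp (P j).contDiff
    have hbr : ∀ i ∈ S, ∀ t p, pb (fun x => mu (P i x)) (fun x => (h t).1 (P j x)) p = 0 := by
      intro i hi t p
      obtain ⟨p', rfl⟩ := (F₁ t : Equiv.Perm (Phase (n + 1))).surjective p
      rw [← pb_comp_symp (F₁ t) (hmuP i) ((hhP t).differentiable (by simp))]
      have h1 := hf i (hmem i hi) j hjm t p'
      have h2 : (fun x => mu (P i ((F₁ t : Equiv.Perm (Phase (n + 1))) x))) =
          fun x => (f i t).1 (P i x) := funext fun x => hF₁ i hi t x
      have h3 : (fun x => (h t).1 (P j ((F₁ t : Equiv.Perm (Phase (n + 1))) x))) =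
          fun x => (f j t).1 (P j x) := funext fun x => (hfh t x).symm
      rw [h2, h3]
      exact h1
    have hinv : ∀ i ∈ S, ∀ t s p, (h t).1 (P j (rt i s (P j p))) = (h t).1 p := by
      intro i hi t s p
      have h1 := hINV i (fun x => (h t).1 (P j x)) (hhP t) (hbr i hi t) s (P j p)
      rw [hP] at h1
      exact h1
    have hne : ∀ i ∈ S, i ≠ j := fun i hi e => hj (e ▸ hi)
    obtain ⟨G, hG, hG1, hGc⟩ := step hLFA hEXR hUNI hBRK hFIB hEXP hCOMM q hq S
      (fun i s => (P j).comp ((rt i s).comp (P j))) (fun i hi => hLin i j (hne i hi))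
      (fun i _ k _ s r p => by
        change P j (rt i s (P j (P j (rt k r (P j p))))) = P j (rt k r (P j (P j (rt i s (P j p)))))
        rw [hP, hP, hrt]) T h (fun i hi t s p => hinv i hi t s p) (closure O) T₀
      isClosed_closure hT₀ (hTO.trans (interior_maximal subset_closure hO)) (fun t ht p => by
        have h1 := hfh t (((F₁ t)⁻¹ : SympCt (n + 1)) |> fun ψ =>
          (ψ : Equiv.Perm (Phase (n + 1))) (P j p))
        simp only at h1
        rw [SympCt.apply_inv_self, hP] at h1
        rw [← h1, ← hg j hjm ⟨t, interior_subset (hON ht)⟩, ← hF₁g t ht, SympCt.apply_inv_self, hP])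
    -- the lift
    have hcont : Continuous fun t => cj j (G t) * F₁ t :=
      continuous_mul_family ((hcjc j).comp G.continuous) F₁.continuous
    have happ : ∀ t p, ((cj j (G t) * F₁ t : SympCt (n + 1)) : Equiv.Perm (Phase (n + 1))) p =
        P j ((G t : Equiv.Perm (Phase (n + 1))) (P j ((F₁ t : Equiv.Perm (Phase (n + 1))) p))) := by
      intro t p
      change ((cj j (G t) : SympCt (n + 1)) : Equiv.Perm (Phase (n + 1)))
        ((F₁ t : Equiv.Perm (Phase (n + 1))) p) = _
      rw [hcj]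
    refine ⟨⟨fun t => cj j (G t) * F₁ t, hcont⟩, ?_, fun t ht => ?_⟩
    · intro i hi t p
      change mu (P i (((cj j (G t) * F₁ t : SympCt (n + 1)) : Equiv.Perm (Phase (n + 1))) p)) = _
      rcases Finset.mem_cons.1 hi with rfl | hi'
      · rw [happ, hP, ← hq, hG, ← hfh]
      · change mu (P i (((cj j (G t) : SympCt (n + 1)) : Equiv.Perm (Phase (n + 1)))
          ((F₁ t : Equiv.Perm (Phase (n + 1))) p))) = _
        rw [hMU (cj j (G t)) i, hF₁ i hi']
        intro s x
        have h1 := hGc i hi' t s (P j x)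
        change (G t : Equiv.Perm (Phase (n + 1))) (P j (rt i s (P j (P j x)))) =
          P j (rt i s (P j ((G t : Equiv.Perm (Phase (n + 1))) (P j x)))) at h1
        rw [hP] at h1
        rw [hcj, hcj, h1, hP]
    · change cj j (G t) * F₁ t = _
      have h2 : cj j (1 : SympCt (n + 1)) = 1 := by
        refine SympCt.ext' fun x => ?_
        rw [hcj]
        exact hP j x
      rw [hG1 t ht, h2, one_mul, hF₁g t (subset_closure (hTO ht))]

end Pool.Agent.TOS
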